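import Pool.Agent.NOE.Poly6

/-!
# The field generated by `lambda, z, tau, W1, V1` contains `e, a, b, c, d, y`
-/

namespace Pool.Agent.NOE

section alg

variable {K : Type*} [Field K] [CharZero K]

/-- The binary cubic form of the final relation, dehomogenised. -/
def C0 (p t : K) : K :=
  (p + 81) * (27 - 5 * p) * t ^ 3 + 24 * (23 * p - 297) * t ^ 2 - 192 * (p - 39) * t - 2560

/-- The relation of weight 6 between `z, u, e, a, v`. -/
theorem relG (e a b c d y : K) (hD : y ^ 2 = D6 e a b c d) (hX : X6 e a b c d ≠ 0)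
    (hZ : Z6 e a b c d ≠ 0) (p z u v : K)
    (hp : p = 320 * (y / X6 e a b c d) ^ 2 - 1)
    (hz : z = Z6 e a b c d / X6 e a b c d) (hu : u = U6 e a b c d / X6 e a b c d)
    (hv : v = V6 e a b c d / X6 e a b c d) :
    (p * b = 20*z*v - 5*u^2 - a*z + 2*e*u + (p+1)*e^2/4) ∧
    (5*p*c = -80*u*v - 8*b*z + 8*a*z^2 - 5*a*u - 16*e*z*u + 40*e*v + 5/2*(p+1)*e*a) ∧
    (135*d = 50*c*z - 50*b*u + 135*a*v + 7*e*b - 7*e*a*z + 14*e^2*u) ∧
    (27*p*(p+1)*(a^2 - 4*a*v) - 8640*p*v^2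
      + (p+1)*a*z*(216*u - 64*z^2 - 36/5*(2*p-3)*e)
      + v*z*(1440*(p-3)*u + 1280*z^2 - 432*(p+1)*e)
      + (1080-200*p)*u^3 - 320*z^2*u^2
      + (p+1)*(128*z^2*u*e + 16*z^2*e^2 - 324*u^2*e - 6/5*(p+81)*u*e^2
        - 1/5*(7*p+27)*e^3) = 0) := by
  have h21 := rel21 e a b c d
  have h22 := rel22 e a b c d
  have h34 := rel34 e a b c d
  have h35 := rel35 e a b c d
  rw [← hD] at h34 h35
  set X := X6 e a b c d with hXdef
  set Z := Z6 e a b c d with hZdef
  set U := U6 e a b c d with hUdef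
  set V := V6 e a b c d with hVdef
  have eZ : Z = z * X := by rw [hz]; field_simp
  have eU : U = u * X := by rw [hu]; field_simp
  have eV : V = v * X := by rw [hv]; field_simp
  have ey : 320 * y ^ 2 = (p + 1) * X ^ 2 := by rw [hp]; field_simp; ring
  have hz0 : z ≠ 0 := by
    intro h
    apply hZ
    rw [eZ, h, zero_mul]
  have k21 : X * (-135*d + 50*c*z - 50*b*u + 135*a*v + 7*e*b - 7*e*a*z + 14*e^2*u) = 0 := by
    rw [eZ, eU, eV] at h21
    linear_combination h21
  have k22 : X * (-8*d*z + 10*c*u - 32*b*v - 2*a*b + 2*a^2*z + e*c - 5*e*a*u + 8*e^2*v) = 0 := by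
    rw [eZ, eU, eV] at h22
    linear_combination h22
  have k34 : X ^ 2 * (-5*u^2 + 20*z*v - b*p - a*z + 2*e*u + (p+1)*e^2/4) = 0 := by
    rw [eZ, eU, eV] at h34
    linear_combination h34 + (b - e^2/4) * ey
  have k35 : X ^ 2 * (-80*u*v - 5*c*p - 8*b*z + 8*a*z^2 - 5*a*u - 16*e*z*u + 40*e*v
      + 5/2*(p+1)*e*a) = 0 := by
    rw [eZ, eU, eV] at h35
    linear_combination h35 + (5 * c - 5/2*e*a) * ey
  have hX2 : X ^ 2 ≠ 0 := pow_ne_zero 2 hX
  have m21 := (mul_eq_zero.1 k21).resolve_left hX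
  have m22 := (mul_eq_zero.1 k22).resolve_left hX
  have m34 := (mul_eq_zero.1 k34).resolve_left hX2
  have m35 := (mul_eq_zero.1 k35).resolve_left hX2
  refine ⟨by linear_combination -m34, by linear_combination -m35,
    by linear_combination -m21, ?_⟩
  have hG : z * (27*p*(p+1)*(a^2 - 4*a*v) - 8640*p*v^2
      + (p+1)*a*z*(216*u - 64*z^2 - 36/5*(2*p-3)*e)
      + v*z*(1440*(p-3)*u + 1280*z^2 - 432*(p+1)*e)
      + (1080-200*p)*u^3 - 320*z^2*u^2
      + (p+1)*(128*z^2*u*e + 16*z^2*e^2 - 324*u^2*e - 6/5*(p+81)*u*e^2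
        - 1/5*(7*p+27)*e^3)) = 0 := by
    linear_combination (27/2) * (p^2 * m22 - (8/135)*z*p^2 * m21
      + (1/5)*p*(10*u + e - (80/27)*z^2) * m35
      + (p*(-32*v - 2*a) - (8/135)*z*p*(-50*u + 7*e)
        - (8/5)*z*(10*u + e - (80/27)*z^2)) * m34)
  exact (mul_eq_zero.1 hG).resolve_left hz0

/-- The relation in diagonal form. -/
theorem relDiag (p z u v e a : K) (hp : p ≠ 0) (hP : p + 81 ≠ 0)
    (hG : 27*p*(p+1)*(a^2 - 4*a*v) - 8640*p*v^2
      + (p+1)*a*z*(216*u - 64*z^2 - 36/5*(2*p-3)*e)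
      + v*z*(1440*(p-3)*u + 1280*z^2 - 432*(p+1)*e)
      + (1080-200*p)*u^3 - 320*z^2*u^2
      + (p+1)*(128*z^2*u*e + 16*z^2*e^2 - 324*u^2*e - 6/5*(p+81)*u*e^2
        - 1/5*(7*p+27)*e^3) = 0)
    (r1 r2 W V : K) (h1 : r1 = 3*u + 3*e) (h2 : r2 = z^2 + 3/80*(p+81)*e)
    (hW : W = a - 2*v + z*(216*u - 64*z^2 - 36/5*(2*p-3)*e)/(54*p))
    (hV : V = v - z*(144*(13*p-27)*u - 128*(p-9)*z^2 - 72/5*(p+1)*(2*p+27)*e)
      /(216*p*(p+81))) :
    27*(p+81)*(27*p*(p+1)*W^2 - 108*p*(p+81)*V^2)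
      + 40*((p+81)*(27-5*p)*r1^3 + 24*(23*p-297)*r1^2*r2 - 192*(p-39)*r1*r2^2 - 2560*r2^3) = 0 := by
  have key : 27*(p+81)*(27*p*(p+1)*W^2 - 108*p*(p+81)*V^2)
      + 40*((p+81)*(27-5*p)*r1^3 + 24*(23*p-297)*r1^2*r2 - 192*(p-39)*r1*r2^2 - 2560*r2^3)
      = 27*(p+81)*(27*p*(p+1)*(a^2 - 4*a*v) - 8640*p*v^2
      + (p+1)*a*z*(216*u - 64*z^2 - 36/5*(2*p-3)*e)
      + v*z*(1440*(p-3)*u + 1280*z^2 - 432*(p+1)*e)
      + (1080-200*p)*u^3 - 320*z^2*u^2
      + (p+1)*(128*z^2*u*e + 16*z^2*e^2 - 324*u^2*e - 6/5*(p+81)*u*e^2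
        - 1/5*(7*p+27)*e^3)) := by
    subst h1 h2 hW hV
    field_simp
    ring
  rw [key, hG, mul_zero]

/-- The rational parametrisation: a subfield containing `lambda, z, tau, W1, V1` contains
`e, a, b, c, d, y`. -/
theorem gen6 (M : Subfield K) (e a b c d y : K) (hD : y ^ 2 = D6 e a b c d)
    (hX : X6 e a b c d ≠ 0) (hZ : Z6 e a b c d ≠ 0) (l z u v p P r1 r2 W V : K)
    (hl : l = y / X6 e a b c d)
    (hp : p = 320 * l ^ 2 - 1) (hP : P = p + 81)
    (hz : z = Z6 e a b c d / X6 e a b c d) (hu : u = U6 e a b c d / X6 e a b c d)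
    (hv : v = V6 e a b c d / X6 e a b c d)
    (h1 : r1 = 3*u + 3*e) (h2 : r2 = z^2 + 3/80*P*e)
    (hW : W = a - 2*v + z*(216*u - 64*z^2 - 36/5*(2*p-3)*e)/(54*p))
    (hV : V = v - z*(144*(13*p-27)*u - 128*(p-9)*z^2 - 72/5*(p+1)*(2*p+27)*e)/(216*p*P))
    (hp0 : p ≠ 0) (hP0 : P ≠ 0) (hr2 : r2 ≠ 0) (hC : C0 p (r1 / r2) ≠ 0)
    (ml : l ∈ M) (mz : z ∈ M) (mt : r1 / r2 ∈ M) (mW : W / r2 ∈ M) (mV : V / r2 ∈ M) :
    e ∈ M ∧ a ∈ M ∧ b ∈ M ∧ c ∈ M ∧ d ∈ M ∧ y ∈ M := by
  have nat : ∀ n : ℕ, (n : K) ∈ M := fun n => natCast_mem M n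
  have num : ∀ (n : ℕ) [n.AtLeastTwo], (OfNat.ofNat n : K) ∈ M := fun n _ => nat n
  have mp : p ∈ M := by
    rw [hp]
    exact sub_mem (mul_mem (num 320) (pow_mem ml 2)) (one_mem M)
  have mP : P ∈ M := by
    rw [hP]
    exact add_mem mp (num 81)
  obtain ⟨eb, ec, ed, eG⟩ := relG e a b c d y hD hX hZ p z u v (by rw [hp, hl]) hz hu hv
  have hdiag := relDiag p z u v e a hp0 (by rw [← hP]; exact hP0) eG r1 r2 W V h1
    (by rw [h2, hP]) hW (by rw [hV, hP])
  set t := r1 / r2 with ht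
  set W1 := W / r2 with hW1
  set V1 := V / r2 with hV1
  have er1 : r1 = t * r2 := by rw [ht]; field_simp
  have eW : W = W1 * r2 := by rw [hW1]; field_simp
  have eV : V = V1 * r2 := by rw [hV1]; field_simp
  have key : r2 ^ 2 * (27*(p+81)*(27*p*(p+1)*W1^2 - 108*p*(p+81)*V1^2) + 40 * C0 p t * r2) = 0 := by
    rw [er1, eW, eV] at hdiag
    unfold C0
    linear_combination hdiag
  have key2 := (mul_eq_zero.1 key).resolve_left (pow_ne_zero 2 hr2)
  have er2 : r2 = -(27*(p+81)*(27*p*(p+1)*W1^2 - 108*p*(p+81)*V1^2)) / (40 * C0 p t) := by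
    rw [eq_div_iff (mul_ne_zero (by norm_num) hC)]
    linear_combination key2
  have mr2 : r2 ∈ M := by
    rw [er2, ← hP]
    unfold C0
    rw [← hP]
    have n1 := num 27; have n2 := num 108; have n3 := num 40; have n4 := num 5
    have n5 := num 24; have n6 := num 23; have n7 := num 297; have n8 := num 192
    have n9 := num 39; have n10 := num 2560; have n11 := one_mem M
    refine div_mem (neg_mem ?_) (mul_mem n3 ?_)
    · refine mul_mem (mul_mem n1 mP) (sub_mem ?_ ?_)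
      · exact mul_mem (mul_mem (mul_mem n1 mp) (add_mem mp n11)) (pow_mem mW 2)
      · exact mul_mem (mul_mem (mul_mem n2 mp) mP) (pow_mem mV 2)
    · refine sub_mem (sub_mem (add_mem ?_ ?_) ?_) n10
      · exact mul_mem (mul_mem mP (sub_mem n1 (mul_mem n4 mp))) (pow_mem mt 3)
      · exact mul_mem (mul_mem n5 (sub_mem (mul_mem n6 mp) n7)) (pow_mem mt 2)
      · exact mul_mem (mul_mem n8 (sub_mem mp n9)) mt
  have mr1 : r1 ∈ M := by rw [er1]; exact mul_mem mt mr2
  have mWW : W ∈ M := by rw [eW]; exact mul_mem mW mr2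
  have mVV : V ∈ M := by rw [eV]; exact mul_mem mV mr2
  have me : e ∈ M := by
    have : e = (r2 - z ^ 2) * 80 / (3 * P) := by
      rw [h2]; field_simp; ring
    rw [this]
    exact div_mem (mul_mem (sub_mem mr2 (pow_mem mz 2)) (num 80)) (mul_mem (num 3) mP)
  have mu : u ∈ M := by
    have : u = r1 / 3 - e := by
      rw [h1]; ring
    rw [this]
    exact sub_mem (div_mem mr1 (num 3)) me
  have mQ : z*(216*u - 64*z^2 - 36/5*(2*p-3)*e)/(54*p) ∈ M := by
    refine div_mem (mul_mem mz (sub_mem (sub_mem ?_ ?_) ?_)) (mul_mem (num 54) mp)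
    · exact mul_mem (num 216) mu
    · exact mul_mem (num 64) (pow_mem mz 2)
    · exact mul_mem (mul_mem (div_mem (num 36) (num 5)) (sub_mem (mul_mem (num 2) mp) (num 3))) me
  have mS : z*(144*(13*p-27)*u - 128*(p-9)*z^2 - 72/5*(p+1)*(2*p+27)*e)/(216*p*P) ∈ M := by
    refine div_mem (mul_mem mz (sub_mem (sub_mem ?_ ?_) ?_)) (mul_mem (mul_mem (num 216) mp) mP)
    · exact mul_mem (mul_mem (num 144) (sub_mem (mul_mem (num 13) mp) (num 27))) mu
    · exact mul_mem (mul_mem (num 128) (sub_mem mp (num 9))) (pow_mem mz 2)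
    · exact mul_mem (mul_mem (mul_mem (div_mem (num 72) (num 5)) (add_mem mp (one_mem M)))
        (add_mem (mul_mem (num 2) mp) (num 27))) me
  have mv : v ∈ M := by
    have : v = V + z*(144*(13*p-27)*u - 128*(p-9)*z^2 - 72/5*(p+1)*(2*p+27)*e)/(216*p*P) := by
      rw [hV]; ring
    rw [this]
    exact add_mem mVV mS
  have ma : a ∈ M := by
    have : a = W + 2*v - z*(216*u - 64*z^2 - 36/5*(2*p-3)*e)/(54*p) := by
      rw [hW]; ring
    rw [this]
    exact sub_mem (add_mem mWW (mul_mem (num 2) mv)) mQ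
  have mb : b ∈ M := by
    have : b = (20*z*v - 5*u^2 - a*z + 2*e*u + (p+1)*e^2/4) / p := by
      rw [← eb]; field_simp
    rw [this]
    refine div_mem (add_mem (add_mem (sub_mem (sub_mem ?_ ?_) ?_) ?_) ?_) mp
    · exact mul_mem (mul_mem (num 20) mz) mv
    · exact mul_mem (num 5) (pow_mem mu 2)
    · exact mul_mem ma mz
    · exact mul_mem (mul_mem (num 2) me) mu
    · exact div_mem (mul_mem (add_mem mp (one_mem M)) (pow_mem me 2)) (num 4)
  have mc : c ∈ M := by
    have : c = (-80*u*v - 8*b*z + 8*a*z^2 - 5*a*u - 16*e*z*u + 40*e*v + 5/2*(p+1)*e*a)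
        / (5*p) := by
      rw [← ec]; field_simp
    rw [this]
    refine div_mem (add_mem (add_mem (sub_mem (sub_mem (add_mem (sub_mem ?_ ?_) ?_) ?_) ?_) ?_) ?_)
      (mul_mem (num 5) mp)
    · exact mul_mem (mul_mem (neg_mem (num 80)) mu) mv
    · exact mul_mem (mul_mem (num 8) mb) mz
    · exact mul_mem (mul_mem (num 8) ma) (pow_mem mz 2)
    · exact mul_mem (mul_mem (num 5) ma) mu
    · exact mul_mem (mul_mem (mul_mem (num 16) me) mz) mu
    · exact mul_mem (mul_mem (num 40) me) mv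
    · exact mul_mem (mul_mem (mul_mem (div_mem (num 5) (num 2)) (add_mem mp (one_mem M))) me) ma
  have md : d ∈ M := by
    have : d = (50*c*z - 50*b*u + 135*a*v + 7*e*b - 7*e*a*z + 14*e^2*u) / 135 := by
      rw [← ed]; ring
    rw [this]
    refine div_mem (add_mem (sub_mem (add_mem (add_mem (sub_mem ?_ ?_) ?_) ?_) ?_) ?_) (num 135)
    · exact mul_mem (mul_mem (num 50) mc) mz
    · exact mul_mem (mul_mem (num 50) mb) mu
    · exact mul_mem (mul_mem (num 135) ma) mv
    · exact mul_mem (mul_mem (num 7) me) mb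
    · exact mul_mem (mul_mem (mul_mem (num 7) me) ma) mz
    · exact mul_mem (mul_mem (num 14) (pow_mem me 2)) mu
  refine ⟨me, ma, mb, mc, md, ?_⟩
  have ey : y = l * X6 e a b c d := by rw [hl]; field_simp
  rw [ey]
  refine mul_mem ml ?_
  unfold X6
  have me' := me
  repeat' first
    | exact me | exact ma | exact mb | exact mc | exact md
    | apply add_mem | apply sub_mem | apply mul_mem | apply pow_mem
    | exact num _

/-- The generators are in every subfield containing the coefficients. -/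
theorem gens_mem (M : Subfield K) (e a b c d y : K) (me : e ∈ M) (ma : a ∈ M) (mb : b ∈ M)
    (mc : c ∈ M) (md : d ∈ M) (my : y ∈ M) (l z u v p P r1 r2 W V : K)
    (hl : l = y / X6 e a b c d)
    (hp : p = 320 * l ^ 2 - 1) (hP : P = p + 81)
    (hz : z = Z6 e a b c d / X6 e a b c d) (hu : u = U6 e a b c d / X6 e a b c d)
    (hv : v = V6 e a b c d / X6 e a b c d)
    (h1 : r1 = 3*u + 3*e) (h2 : r2 = z^2 + 3/80*P*e)
    (hW : W = a - 2*v + z*(216*u - 64*z^2 - 36/5*(2*p-3)*e)/(54*p))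
    (hV : V = v - z*(144*(13*p-27)*u - 128*(p-9)*z^2 - 72/5*(p+1)*(2*p+27)*e)/(216*p*P)) :
    l ∈ M ∧ z ∈ M ∧ r1 / r2 ∈ M ∧ W / r2 ∈ M ∧ V / r2 ∈ M := by
  have nat : ∀ n : ℕ, (n : K) ∈ M := fun n => natCast_mem M n
  have num : ∀ (n : ℕ) [n.AtLeastTwo], (OfNat.ofNat n : K) ∈ M := fun n _ => nat n
  have m1 : (1 : K) ∈ M := one_mem M
  have mX : X6 e a b c d ∈ M := by
    unfold X6
    repeat' first
      | exact me | exact ma | exact mb | exact mc | exact md
      | apply add_mem | apply sub_mem | apply mul_mem | apply pow_mem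
      | exact num _
  have mZ : Z6 e a b c d ∈ M := by
    unfold Z6
    repeat' first
      | exact me | exact ma | exact mb | exact mc | exact md
      | apply add_mem | apply sub_mem | apply mul_mem | apply pow_mem
      | exact num _
  have mU : U6 e a b c d ∈ M := by
    unfold U6
    repeat' first
      | exact me | exact ma | exact mb | exact mc | exact md
      | apply add_mem | apply sub_mem | apply mul_mem | apply pow_mem
      | exact num _
  have mV : V6 e a b c d ∈ M := by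
    unfold V6
    repeat' first
      | exact me | exact ma | exact mb | exact mc | exact md
      | apply add_mem | apply sub_mem | apply mul_mem | apply pow_mem | apply neg_mem
      | exact num _
  have ml : l ∈ M := by rw [hl]; exact div_mem my mX
  have mz : z ∈ M := by rw [hz]; exact div_mem mZ mX
  have mu : u ∈ M := by rw [hu]; exact div_mem mU mX
  have mv : v ∈ M := by rw [hv]; exact div_mem mV mX
  have mp : p ∈ M := by
    rw [hp]
    exact sub_mem (mul_mem (num 320) (pow_mem ml 2)) m1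
  have mP : P ∈ M := by
    rw [hP]
    exact add_mem mp (num 81)
  have mr1 : r1 ∈ M := by
    rw [h1]
    exact add_mem (mul_mem (num 3) mu) (mul_mem (num 3) me)
  have mr2 : r2 ∈ M := by
    rw [h2]
    exact add_mem (pow_mem mz 2) (mul_mem (mul_mem (div_mem (num 3) (num 80)) mP) me)
  have mW : W ∈ M := by
    rw [hW]
    repeat' first
      | exact me | exact ma | exact mz | exact mu | exact mv | exact mp | exact mP | exact m1
      | apply add_mem | apply sub_mem | apply div_mem | apply mul_mem | apply pow_mem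
      | exact num _
  have mV0 : V ∈ M := by
    rw [hV]
    repeat' first
      | exact me | exact ma | exact mz | exact mu | exact mv | exact mp | exact mP | exact m1
      | apply add_mem | apply sub_mem | apply div_mem | apply mul_mem | apply pow_mem
      | exact num _
  exact ⟨ml, mz, div_mem mr1 mr2, div_mem mW mr2, div_mem mV0 mr2⟩

end alg

end Pool.Agent.NOE
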