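import Pool.Agent.NOE.Stmts

/-!
# The constant kappa is constant
-/

open MvPolynomial IntermediateField
open Pool.Agent.Lib_helper20.Noether

namespace Pool.Agent.NOE

namespace CONK

theorem der_prod {K : Type} [Field K] [Algebra ℂ K] {ι : Type} [DecidableEq ι]
    (D : Derivation ℂ K K) (f g : ι → K) (s : Finset ι) (h : ∀ i ∈ s, D (f i) = f i * g i) :
    D (∏ i ∈ s, f i) = (∏ i ∈ s, f i) * ∑ i ∈ s, g i := by
  induction s using Finset.induction_on with
  | empty => simp
  | insert a s ha ih =>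
    rw [Finset.prod_insert ha, Finset.sum_insert ha, D.leibniz,
      ih (fun i hi => h i (Finset.mem_insert_of_mem hi)), h a (Finset.mem_insert_self a s),
      smul_eq_mul, smul_eq_mul]
    ring

theorem sum_pairs {K : Type} [Field K] (n : ℕ) (h : Fin n → Fin n → K) (h0 : ∀ i, h i i = 0) :
    ∑ i, ∑ j ∈ Finset.Ioi i, (h i j + h j i) = ∑ i, ∑ j, h i j := by
  have h1 : ∀ i, ∑ j, h i j = ∑ j ∈ Finset.Ioi i, h i j + ∑ j ∈ Finset.Iio i, h i j := by
    intro i
    have hu : (Finset.univ : Finset (Fin n)) =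
        insert i (Finset.Ioi i ∪ Finset.Iio i) := by
      ext j
      simp only [Finset.mem_univ, Finset.mem_insert, Finset.mem_union, Finset.mem_Ioi,
        Finset.mem_Iio, true_iff]
      rcases lt_trichotomy i j with hh | hh | hh
      · exact Or.inr (Or.inl hh)
      · exact Or.inl hh.symm
      · exact Or.inr (Or.inr hh)
    have hd : Disjoint (Finset.Ioi i) (Finset.Iio i) := by
      rw [Finset.disjoint_left]
      intro a ha hb
      rw [Finset.mem_Ioi] at ha
      rw [Finset.mem_Iio] at hb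
      exact lt_asymm ha hb
    rw [hu, Finset.sum_insert (by simp), h0, zero_add, Finset.sum_union hd]
  have h2 : ∑ i, ∑ j ∈ Finset.Iio i, h i j = ∑ i, ∑ j ∈ Finset.Ioi i, h j i := by
    rw [Finset.sum_comm' (s := Finset.univ) (t := fun i => Finset.Iio i)
      (t' := Finset.univ) (s' := fun j => Finset.Ioi j)]
    intro a b
    simp
  rw [Finset.sum_congr rfl (fun i _ => h1 i), Finset.sum_add_distrib, h2,
    ← Finset.sum_add_distrib]
  refine Finset.sum_congr rfl (fun i _ => ?_)
  rw [Finset.sum_add_distrib]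

end CONK

open CONK in
theorem CONK_thm : Stmt_CONK := by
  intro K _ _ n x c hx D hDx hDc
  have hc : D (∏ i, c i) = (∏ i, c i) * ∑ i, -(∑ j, (x i - x j)⁻¹ * c j ^ 2) := by
    apply der_prod
    intro i _
    rw [hDc i]
    ring
  have hV : D (∏ i, ∏ j ∈ Finset.Ioi i, (x j - x i)) =
      (∏ i, ∏ j ∈ Finset.Ioi i, (x j - x i)) *
        ∑ i, ∑ j ∈ Finset.Ioi i, ((x i - x j)⁻¹ * c j ^ 2 + (x j - x i)⁻¹ * c i ^ 2) := by
    apply der_prod
    intro i _
    apply der_prod
    intro j hj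
    rw [Finset.mem_Ioi] at hj
    have hne : x j - x i ≠ 0 := sub_ne_zero.mpr (fun e => (ne_of_gt hj) (hx e))
    have hne2 : (x i - x j)⁻¹ = -(x j - x i)⁻¹ := by
      rw [← inv_neg, neg_sub]
    rw [map_sub, hDx, hDx, hne2]
    have : (x j - x i) * (-(x j - x i)⁻¹ * c j ^ 2 + (x j - x i)⁻¹ * c i ^ 2) =
        ((x j - x i) * (x j - x i)⁻¹) * (c i ^ 2 - c j ^ 2) := by ring
    rw [this, mul_inv_cancel₀ hne]
    ring
  rw [sum_pairs n (fun i j => (x i - x j)⁻¹ * c j ^ 2) (fun i => by simp)] at hV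
  rw [kap, Matrix.det_vandermonde, D.leibniz, hc, hV, smul_eq_mul, smul_eq_mul,
    Finset.sum_neg_distrib]
  ring

end Pool.Agent.NOE
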