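import Pool.Agent.NOE.Stmts

/-!
# The pencil is constant along `x_i' = -c_i^2`
-/

open Polynomial

namespace Pool.Agent.NOE.CONP

theorem leibniz_prod {R : Type*} [CommRing R] (Δ : R →+ R)
    (hΔ : ∀ p q, Δ (p * q) = p * Δ q + q * Δ p) {ι : Type*} [DecidableEq ι]
    (s : Finset ι) (f : ι → R) :
    Δ (∏ j ∈ s, f j) = ∑ k ∈ s, (∏ j ∈ s.erase k, f j) * Δ (f k) := by
  induction s using Finset.induction_on with
  | empty =>
    have h := hΔ 1 1
    simp only [one_mul] at h
    simpa using h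
  | @insert a s ha ih =>
    rw [Finset.prod_insert ha, hΔ, ih, Finset.sum_insert ha,
      Finset.erase_insert ha, Finset.mul_sum, add_comm]
    congr 1
    apply Finset.sum_congr rfl
    intro k hk
    have hak : a ≠ k := fun h => ha (h ▸ hk)
    rw [Finset.erase_insert_of_ne hak, Finset.prod_insert (fun h => ha (Finset.mem_of_mem_erase h))]
    ring

variable {K ι : Type} [Field K] [Fintype ι] [DecidableEq ι]

theorem pair_eq (x : ι → K) (hx : Function.Injective x) (i k : ι) (hik : i ≠ k) :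
    ∏ j ∈ (Finset.univ.erase i).erase k, (X - C (x j)) =
      C ((x i - x k)⁻¹) * (∏ j ∈ Finset.univ.erase i, (X - C (x j)) -
        ∏ j ∈ Finset.univ.erase k, (X - C (x j))) := by
  have h1 : (X - C (x k)) * ∏ j ∈ (Finset.univ.erase i).erase k, (X - C (x j)) =
      ∏ j ∈ Finset.univ.erase i, (X - C (x j)) :=
    Finset.mul_prod_erase _ _ (Finset.mem_erase.2 ⟨hik.symm, Finset.mem_univ _⟩)
  have h2 : (X - C (x i)) * ∏ j ∈ (Finset.univ.erase k).erase i, (X - C (x j)) =
      ∏ j ∈ Finset.univ.erase k, (X - C (x j)) :=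
    Finset.mul_prod_erase _ _ (Finset.mem_erase.2 ⟨hik, Finset.mem_univ _⟩)
  rw [Finset.erase_right_comm] at h2
  rw [← h1, ← h2, ← sub_mul, ← mul_assoc]
  have h3 : C ((x i - x k)⁻¹) * (X - C (x k) - (X - C (x i))) = (1 : K[X]) := by
    have h4 : x i - x k ≠ 0 := sub_ne_zero.2 (fun h => hik (hx h))
    have h5 : (X - C (x k) - (X - C (x i)) : K[X]) = C (x i - x k) := by
      rw [C_sub]; ring
    rw [h5, ← C_mul, inv_mul_cancel₀ h4, C_1]
  rw [h3, one_mul]

theorem exists_delta [Algebra ℂ K] (D : Derivation ℂ K K) : ∃ Δ : K[X] →+ K[X],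
    (∀ p q, Δ (p * q) = p * Δ q + q * Δ p) ∧ (∀ a, Δ (C a) = C (D a)) ∧ Δ X = 0 ∧
      ∀ (p : K[X]) (k : ℕ), (Δ p).coeff k = D (p.coeff k) := by
  let _inst : Differential K := ⟨D.restrictScalars ℤ⟩
  refine ⟨(Differential.mapCoeffs : Derivation ℤ K[X] K[X]).toLinearMap.toAddMonoidHom,
    fun p q => Derivation.leibniz (Differential.mapCoeffs : Derivation ℤ K[X] K[X]) p q,
    fun a => Differential.mapCoeffs_C a, Differential.mapCoeffs_X, fun p k => rfl⟩

end Pool.Agent.NOE.CONP

namespace Pool.Agent.NOE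

open CONP

theorem CONP_thm : Stmt_CONP := by
  intro K ι _ _ _ _ x c hx hker hsq D hDx hDc
  classical
  have hsum : D (∑ i, x i) = -1 := by
    rw [map_sum, Finset.sum_congr rfl (fun i _ => hDx i), Finset.sum_neg_distrib, hsq]
  obtain ⟨Δ, hleib, hΔC, hΔX, hcoeff⟩ := exists_delta D
  have hL : ∀ j, Δ (X - C (x j)) = C (c j ^ 2) := by
    intro j
    rw [map_sub, hΔX, hΔC, hDx, C_neg]
    ring
  let P : ι → K[X] := fun i => ∏ j ∈ Finset.univ.erase i, (X - C (x j))
  have hFF : Δ (FF x) = GG x c := by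
    unfold FF GG
    rw [leibniz_prod Δ hleib]
    apply Finset.sum_congr rfl
    intro k _
    rw [hL, mul_comm]
  have hP : ∀ i, Δ (P i) = ∑ k, C (c k ^ 2 * (x i - x k)⁻¹) * (P i - P k) := by
    intro i
    change Δ (∏ j ∈ Finset.univ.erase i, (X - C (x j))) = _
    rw [leibniz_prod Δ hleib, ← Finset.add_sum_erase Finset.univ (fun k =>
      C (c k ^ 2 * (x i - x k)⁻¹) * (P i - P k)) (Finset.mem_univ i), sub_self (P i), mul_zero,
      zero_add]
    apply Finset.sum_congr rfl
    intro k hk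
    rw [pair_eq x hx i k (Finset.ne_of_mem_erase hk).symm, hL, C_mul]
    ring
  let a : ι → ι → K := fun i k => c i ^ 2 * (c k ^ 2 * (x i - x k)⁻¹)
  have ha : ∀ i k, a k i = - a i k := by
    intro i k
    simp only [a]
    rw [← neg_sub (x i) (x k), inv_neg]
    ring
  have hGG : Δ (GG x c) = 0 := by
    have h1 : Δ (GG x c) = ∑ i, (C (c i ^ 2) * Δ (P i) + P i * C (D (c i ^ 2))) := by
      unfold GG
      rw [map_sum]
      apply Finset.sum_congr rfl
      intro i _
      rw [hleib, hΔC]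
    have h2 : ∀ i, P i * C (D (c i ^ 2)) = - 2 * ∑ k, C (a i k) * P i := by
      intro i
      have h3 : D (c i ^ 2) = -2 * ∑ k, a i k := by
        rw [Derivation.leibniz_pow, hDc]
        simp only [a]
        rw [← Finset.mul_sum]
        have h4 : ∑ j, (x i - x j)⁻¹ * c j ^ 2 = ∑ j, c j ^ 2 * (x i - x j)⁻¹ :=
          Finset.sum_congr rfl (fun j _ => mul_comm _ _)
        rw [h4]
        simp only [smul_eq_mul, nsmul_eq_mul]
        push_cast
        ring
      rw [h3, ← Finset.sum_mul, C_mul, map_sum]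
      simp only [C_neg, C_ofNat]
      ring
    have h5 : ∀ i, C (c i ^ 2) * Δ (P i) = ∑ k, C (a i k) * P i - ∑ k, C (a i k) * P k := by
      intro i
      rw [hP, Finset.mul_sum, ← Finset.sum_sub_distrib]
      apply Finset.sum_congr rfl
      intro k _
      simp only [a]
      rw [C_mul (a := c i ^ 2)]
      ring
    rw [h1]
    simp only [h2, h5]
    rw [Finset.sum_add_distrib, Finset.sum_sub_distrib]
    have h6 : ∑ i, ∑ k, C (a i k) * P k = - ∑ i, ∑ k, C (a i k) * P i := by
      rw [Finset.sum_comm, ← Finset.sum_neg_distrib]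
      apply Finset.sum_congr rfl
      intro i _
      rw [← Finset.sum_neg_distrib]
      apply Finset.sum_congr rfl
      intro k _
      rw [ha i k, C_neg]
      ring
    rw [h6, ← Finset.mul_sum]
    ring
  refine ⟨hsum, fun k => ?_, fun k => ?_⟩
  · rw [← hcoeff, hGG, coeff_zero]
  · rw [← hcoeff]
    have h7 : Δ (F1 x c) = 0 := by
      unfold F1
      rw [map_add, hleib, hFF, hGG, hΔC, hsum]
      simp
    rw [h7, coeff_zero]

end Pool.Agent.NOE
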