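import Pool.Agent.NOE.Inv

/-!
# Elementary symmetric functions as coefficients
-/

open MvPolynomial IntermediateField
open Pool.Agent.Lib_helper20.Noether Pool.Agent.Lib_helper20.Noether.ARTIN

namespace Pool.Agent.NOE

theorem esymm_of_coeff {n : ℕ} (M : IntermediateField ℂ (E (Fin n)))
    (h : ∀ k, (∏ i : Fin n, (Polynomial.X - Polynomial.C (x i : E (Fin n)))).coeff k ∈ M)
    (k : Fin n) :
    algebraMap (MvPolynomial (Fin n) ℂ) (E (Fin n)) (esymm (Fin n) ℂ (k + 1)) ∈ M := by
  have h1 : algebraMap (MvPolynomial (Fin n) ℂ) (E (Fin n)) (esymm (Fin n) ℂ (k + 1)) =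
      ((Finset.univ : Finset (Fin n)).val.map (fun i => (x i : E (Fin n)))).esymm (k + 1) := by
    rw [← aeval_esymm_eq_multiset_esymm (Fin n) ℂ]
    have h2 : (aeval (fun i => (x i : E (Fin n))) : MvPolynomial (Fin n) ℂ →ₐ[ℂ] E (Fin n)) =
        (Algebra.ofId (MvPolynomial (Fin n) ℂ) (E (Fin n))).restrictScalars ℂ := by
      apply MvPolynomial.algHom_ext
      intro i
      rw [aeval_X]
      rfl
    rw [h2]
    rfl
  rw [h1]
  set s := (Finset.univ : Finset (Fin n)).val.map (fun i => (x i : E (Fin n))) with hs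
  have hcard : Multiset.card s = n := by simp [hs]
  have hk : n - (k + 1) ≤ Multiset.card s := by rw [hcard]; omega
  have h3 := Multiset.prod_X_sub_C_coeff s hk
  have h4 : (s.map fun t => Polynomial.X - Polynomial.C t).prod =
      ∏ i : Fin n, (Polynomial.X - Polynomial.C (x i : E (Fin n))) := by
    rw [hs, Multiset.map_map]
    rfl
  have h5 : Multiset.card s - (n - (k + 1)) = k + 1 := by
    rw [hcard]
    have := k.2
    omega
  rw [h4, h5] at h3
  have h6 := h (n - (k + 1))
  rw [h3] at h6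
  have h7 : s.esymm (k + 1) = (-1) ^ ((k : ℕ) + 1) * ((-1) ^ ((k : ℕ) + 1) * s.esymm (k + 1)) := by
    rw [← mul_assoc, ← mul_pow]
    simp
  rw [h7]
  exact mul_mem (pow_mem (neg_mem (one_mem M)) _) h6

/-- Coefficients of a composition with a translation. -/
theorem coeff_comp_mem {K : Type*} [Field K] (M : Subfield K) (q : Polynomial K)
    (hq : ∀ k, q.coeff k ∈ M) (m : K) (hm : m ∈ M) (k : ℕ) :
    (q.comp (Polynomial.X - Polynomial.C m)).coeff k ∈ M := by
  have h1 : q ∈ Polynomial.lifts M.subtype := by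
    rw [Polynomial.lifts_iff_coeff_lifts]
    intro j
    exact ⟨⟨q.coeff j, hq j⟩, rfl⟩
  obtain ⟨Q, hQ⟩ := h1
  have h2 : q.comp (Polynomial.X - Polynomial.C m) =
      (Q.comp (Polynomial.X - Polynomial.C (⟨m, hm⟩ : M))).map M.subtype := by
    rw [Polynomial.map_comp, Polynomial.map_sub, Polynomial.map_X, Polynomial.map_C]
    have h3 : Q.map M.subtype = q := hQ
    rw [h3]
    rfl
  rw [h2, Polynomial.coeff_map]
  exact ((Q.comp (Polynomial.X - Polynomial.C (⟨m, hm⟩ : M))).coeff k).2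

end Pool.Agent.NOE
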