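import Pool.Agent.NOE.Stmts

/-!
# DER: derivations of a field of rational functions with prescribed values
-/

set_option autoImplicit false

open MvPolynomial
open Pool.Agent.Lib_helper20.Noether

namespace Pool.Agent.NOE

namespace DER

variable {ι : Type} (w : ι → E ι)

/-- The dual numbers over the field. -/
abbrev T (ι : Type) : Type := TrivSqZeroExt (E ι) (E ι)

/-- `f ↦ f + eps D f` on polynomials. -/
noncomputable def phi : MvPolynomial ι ℂ →ₐ[ℂ] T ι :=
  aeval fun i => TrivSqZeroExt.inl (x i) + TrivSqZeroExt.inr (w i)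

theorem fst_phi (f : MvPolynomial ι ℂ) :
    (phi w f).fst = algebraMap (MvPolynomial ι ℂ) (E ι) f := by
  have h : (TrivSqZeroExt.fstHom ℂ (E ι) (E ι)).comp (phi w) =
      IsScalarTower.toAlgHom ℂ (MvPolynomial ι ℂ) (E ι) := by
    apply MvPolynomial.algHom_ext
    intro i
    simp [phi, x]
  exact DFunLike.congr_fun h f

theorem isUnit_phi (y : nonZeroDivisors (MvPolynomial ι ℂ)) :
    IsUnit ((phi w).toRingHom y) := by
  rw [TrivSqZeroExt.isUnit_iff_isUnit_fst]
  change IsUnit (phi w y).fst
  rw [fst_phi]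
  exact IsLocalization.map_units (E ι) y

/-- `f ↦ f + eps D f` on rational functions. -/
noncomputable def psi : E ι →+* T ι := IsLocalization.lift (isUnit_phi w)

theorem psi_algebraMap (f : MvPolynomial ι ℂ) :
    psi w (algebraMap (MvPolynomial ι ℂ) (E ι) f) = phi w f :=
  IsLocalization.lift_eq (isUnit_phi w) f

theorem fst_psi (f : E ι) : (psi w f).fst = f := by
  have h : (TrivSqZeroExt.fstHom ℂ (E ι) (E ι)).toRingHom.comp (psi w) = RingHom.id (E ι) := by
    apply IsLocalization.ringHom_ext (nonZeroDivisors (MvPolynomial ι ℂ))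
    refine RingHom.ext fun g => ?_
    change (psi w (algebraMap (MvPolynomial ι ℂ) (E ι) g)).fst = _
    rw [psi_algebraMap, fst_phi]
    rfl
  exact DFunLike.congr_fun h f

theorem psi_const (c : ℂ) : (psi w (algebraMap ℂ (E ι) c)).snd = 0 := by
  rw [IsScalarTower.algebraMap_apply ℂ (MvPolynomial ι ℂ) (E ι), psi_algebraMap, AlgHom.commutes]
  exact TrivSqZeroExt.snd_inl _ _

theorem psi_x (i : ι) : (psi w (x i)).snd = w i := by
  rw [x, psi_algebraMap, phi, aeval_X]
  simp

end DER

open DER in
/-- Derivations of a field of rational functions. -/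
theorem DER_thm : Stmt_DER := by
  intro ι w
  have hmul : ∀ a b : E ι, (psi w (a * b)).snd = a • (psi w b).snd + b • (psi w a).snd := by
    intro a b
    rw [map_mul, TrivSqZeroExt.snd_mul, fst_psi, fst_psi]
    simp only [op_smul_eq_smul]
  have hsmul : ∀ (c : ℂ) (a : E ι), (psi w (c • a)).snd = c • (psi w a).snd := by
    intro c a
    rw [Algebra.smul_def, hmul, psi_const, smul_zero, add_zero, smul_eq_mul, ← Algebra.smul_def]
  let L : E ι →ₗ[ℂ] E ι :=
    { toFun := fun a => (psi w a).snd
      map_add' := fun a b => by rw [map_add, TrivSqZeroExt.snd_add]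
      map_smul' := fun c a => hsmul c a }
  exact ⟨Derivation.mk' L hmul, fun i => psi_x w i⟩

end Pool.Agent.NOE
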