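import Pool.Agent.NOE.Poly6

/-!
# The discriminant of a sextic with zero trace
-/

namespace Pool.Agent.NOE

section det

variable {R : Type*} [CommRing R]

/-- The matrix of the multiplication by the derivative (up to signs of rows). -/
def B6 (e a b c d : R) : Matrix (Fin 6) (Fin 6) R :=
  !![c, 2*b, 3*a, 4*e, 0, 6;
     6*d, 5*c, 4*b, 3*a, 2*e, 0;
     0, 6*d, 5*c, 4*b, 3*a, 2*e;
     -2*e*d, -2*e*c, 6*d-2*e*b, 5*c-2*e*a, 4*b-2*e^2, 3*a;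
     -3*a*d, -2*e*d-3*a*c, -2*e*c-3*a*b, 6*d-2*e*b-3*a^2, 5*c-5*e*a, 4*b-2*e^2;
     -(4*b-2*e^2)*d, -3*a*d-(4*b-2*e^2)*c, -2*e*d-3*a*c-(4*b-2*e^2)*b,
       -2*e*c-3*a*b-(4*b-2*e^2)*a, 6*d-2*e*b-3*a^2-(4*b-2*e^2)*e, 5*c-5*e*a]

set_option maxRecDepth 10000 in
theorem detB6 (e a b c d : R) : (B6 e a b c d).det = D6 e a b c d := by
  unfold B6 D6
  simp [Matrix.det_succ_row_zero, Fin.sum_univ_succ, Fin.succAbove]
  ring

/-- coefficient of `T^4` in the product of the `T - x i` -/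
def e6 (x : Fin 6 → R) : R :=
    x 0*x 1 + x 0*x 2 + x 0*x 3 + x 0*x 4 + x 0*x 5 + x 1*x 2 + x 1*x 3 + x 1*x 4 + x 1*x 5 + x
    2*x 3 + x 2*x 4 + x 2*x 5 + x 3*x 4 + x 3*x 5 + x 4*x 5

/-- coefficient of `T^3` in the product of the `T - x i` -/
def a6 (x : Fin 6 → R) : R :=
    -(x 0*x 1*x 2 + x 0*x 1*x 3 + x 0*x 1*x 4 + x 0*x 1*x 5 + x 0*x 2*x 3 + x 0*x 2*x 4 + x 0*x
    2*x 5 + x 0*x 3*x 4 + x 0*x 3*x 5 + x 0*x 4*x 5 + x 1*x 2*x 3 + x 1*x 2*x 4 + x 1*x 2*x 5 +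
    x 1*x 3*x 4 + x 1*x 3*x 5 + x 1*x 4*x 5 + x 2*x 3*x 4 + x 2*x 3*x 5 + x 2*x 4*x 5 + x 3*x
    4*x 5)

/-- coefficient of `T^2` in the product of the `T - x i` -/
def b6 (x : Fin 6 → R) : R :=
    x 0*x 1*x 2*x 3 + x 0*x 1*x 2*x 4 + x 0*x 1*x 2*x 5 + x 0*x 1*x 3*x 4 + x 0*x 1*x 3*x 5 + x
    0*x 1*x 4*x 5 + x 0*x 2*x 3*x 4 + x 0*x 2*x 3*x 5 + x 0*x 2*x 4*x 5 + x 0*x 3*x 4*x 5 + x
    1*x 2*x 3*x 4 + x 1*x 2*x 3*x 5 + x 1*x 2*x 4*x 5 + x 1*x 3*x 4*x 5 + x 2*x 3*x 4*x 5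

/-- coefficient of `T^1` in the product of the `T - x i` -/
def c6 (x : Fin 6 → R) : R :=
    -(x 0*x 1*x 2*x 3*x 4 + x 0*x 1*x 2*x 3*x 5 + x 0*x 1*x 2*x 4*x 5 + x 0*x 1*x 3*x 4*x 5 + x
    0*x 2*x 3*x 4*x 5 + x 1*x 2*x 3*x 4*x 5)

/-- coefficient of `T^0` in the product of the `T - x i` -/
def d6 (x : Fin 6 → R) : R :=
    x 0*x 1*x 2*x 3*x 4*x 5

end det

section disc

variable {K : Type*} [Field K]

theorem root6 (x : Fin 6 → K) (h0 : x 0 + x 1 + x 2 + x 3 + x 4 + x 5 = 0) (i : Fin 6) :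
    x i ^ 6 + e6 x * x i ^ 4 + a6 x * x i ^ 3 + b6 x * x i ^ 2 + c6 x * x i + d6 x = 0 := by
  unfold e6 a6 b6 c6 d6
  fin_cases i
  · change x 0 ^ 6 + _ * x 0 ^ 4 + _ * x 0 ^ 3 + _ * x 0 ^ 2 + _ * x 0 + _ = 0
    linear_combination x 0 ^ 5 * h0
  · change x 1 ^ 6 + _ * x 1 ^ 4 + _ * x 1 ^ 3 + _ * x 1 ^ 2 + _ * x 1 + _ = 0
    linear_combination x 1 ^ 5 * h0
  · change x 2 ^ 6 + _ * x 2 ^ 4 + _ * x 2 ^ 3 + _ * x 2 ^ 2 + _ * x 2 + _ = 0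
    linear_combination x 2 ^ 5 * h0
  · change x 3 ^ 6 + _ * x 3 ^ 4 + _ * x 3 ^ 3 + _ * x 3 ^ 2 + _ * x 3 + _ = 0
    linear_combination x 3 ^ 5 * h0
  · change x 4 ^ 6 + _ * x 4 ^ 4 + _ * x 4 ^ 3 + _ * x 4 ^ 2 + _ * x 4 + _ = 0
    linear_combination x 4 ^ 5 * h0
  · change x 5 ^ 6 + _ * x 5 ^ 4 + _ * x 5 ^ 3 + _ * x 5 ^ 2 + _ * x 5 + _ = 0
    linear_combination x 5 ^ 5 * h0

theorem der6_0 (x : Fin 6 → K) (h0 : x 0 + x 1 + x 2 + x 3 + x 4 + x 5 = 0) :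
    c6 x + 2*b6 x*x 0 + 3*a6 x*x 0^2 + 4*e6 x*x 0^3 + 6*x 0^5 =
      (x 0 - x 1)*(x 0 - x 2)*(x 0 - x 3)*(x 0 - x 4)*(x 0 - x 5) := by
  unfold e6 a6 b6 c6
  linear_combination 5 * x 0 ^ 4 * h0

theorem der6_1 (x : Fin 6 → K) (h0 : x 0 + x 1 + x 2 + x 3 + x 4 + x 5 = 0) :
    c6 x + 2*b6 x*x 1 + 3*a6 x*x 1^2 + 4*e6 x*x 1^3 + 6*x 1^5 =
      (x 1 - x 0)*(x 1 - x 2)*(x 1 - x 3)*(x 1 - x 4)*(x 1 - x 5) := by
  unfold e6 a6 b6 c6
  linear_combination 5 * x 1 ^ 4 * h0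

theorem der6_2 (x : Fin 6 → K) (h0 : x 0 + x 1 + x 2 + x 3 + x 4 + x 5 = 0) :
    c6 x + 2*b6 x*x 2 + 3*a6 x*x 2^2 + 4*e6 x*x 2^3 + 6*x 2^5 =
      (x 2 - x 0)*(x 2 - x 1)*(x 2 - x 3)*(x 2 - x 4)*(x 2 - x 5) := by
  unfold e6 a6 b6 c6
  linear_combination 5 * x 2 ^ 4 * h0

theorem der6_3 (x : Fin 6 → K) (h0 : x 0 + x 1 + x 2 + x 3 + x 4 + x 5 = 0) :
    c6 x + 2*b6 x*x 3 + 3*a6 x*x 3^2 + 4*e6 x*x 3^3 + 6*x 3^5 =
      (x 3 - x 0)*(x 3 - x 1)*(x 3 - x 2)*(x 3 - x 4)*(x 3 - x 5) := by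
  unfold e6 a6 b6 c6
  linear_combination 5 * x 3 ^ 4 * h0

theorem der6_4 (x : Fin 6 → K) (h0 : x 0 + x 1 + x 2 + x 3 + x 4 + x 5 = 0) :
    c6 x + 2*b6 x*x 4 + 3*a6 x*x 4^2 + 4*e6 x*x 4^3 + 6*x 4^5 =
      (x 4 - x 0)*(x 4 - x 1)*(x 4 - x 2)*(x 4 - x 3)*(x 4 - x 5) := by
  unfold e6 a6 b6 c6
  linear_combination 5 * x 4 ^ 4 * h0

theorem der6_5 (x : Fin 6 → K) (h0 : x 0 + x 1 + x 2 + x 3 + x 4 + x 5 = 0) :
    c6 x + 2*b6 x*x 5 + 3*a6 x*x 5^2 + 4*e6 x*x 5^3 + 6*x 5^5 =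
      (x 5 - x 0)*(x 5 - x 1)*(x 5 - x 2)*(x 5 - x 3)*(x 5 - x 4) := by
  unfold e6 a6 b6 c6
  linear_combination 5 * x 5 ^ 4 * h0

theorem prodder6 (x : Fin 6 → K) (h0 : x 0 + x 1 + x 2 + x 3 + x 4 + x 5 = 0) :
    ∏ i, (c6 x + 2*b6 x*x i + 3*a6 x*x i^2 + 4*e6 x*x i^3 + 6*x i^5) =
      - (Matrix.vandermonde x).det ^ 2 := by
  rw [Matrix.det_vandermonde]
  simp only [Fin.prod_univ_six]
  rw [der6_0 x h0, der6_1 x h0, der6_2 x h0, der6_3 x h0, der6_4 x h0, der6_5 x h0]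
  have hi0 : Finset.Ioi (0 : Fin 6) = {1, 2, 3, 4, 5} := by decide
  have hi1 : Finset.Ioi (1 : Fin 6) = {2, 3, 4, 5} := by decide
  have hi2 : Finset.Ioi (2 : Fin 6) = {3, 4, 5} := by decide
  have hi3 : Finset.Ioi (3 : Fin 6) = {4, 5} := by decide
  have hi4 : Finset.Ioi (4 : Fin 6) = {5} := by decide
  have hi5 : Finset.Ioi (5 : Fin 6) = ∅ := by decide
  rw [hi0, hi1, hi2, hi3, hi4, hi5]
  rw [Finset.prod_insert (by decide), Finset.prod_insert (by decide),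
    Finset.prod_insert (by decide), Finset.prod_insert (by decide), Finset.prod_singleton,
    Finset.prod_insert (by decide), Finset.prod_insert (by decide),
    Finset.prod_insert (by decide), Finset.prod_singleton,
    Finset.prod_insert (by decide), Finset.prod_insert (by decide), Finset.prod_singleton,
    Finset.prod_insert (by decide), Finset.prod_singleton, Finset.prod_singleton,
    Finset.prod_empty]
  have w01 : x 1 - x 0 = -(x 0 - x 1) := by ring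
  have w02 : x 2 - x 0 = -(x 0 - x 2) := by ring
  have w03 : x 3 - x 0 = -(x 0 - x 3) := by ring
  have w04 : x 4 - x 0 = -(x 0 - x 4) := by ring
  have w05 : x 5 - x 0 = -(x 0 - x 5) := by ring
  have w12 : x 2 - x 1 = -(x 1 - x 2) := by ring
  have w13 : x 3 - x 1 = -(x 1 - x 3) := by ring
  have w14 : x 4 - x 1 = -(x 1 - x 4) := by ring
  have w15 : x 5 - x 1 = -(x 1 - x 5) := by ring
  have w23 : x 3 - x 2 = -(x 2 - x 3) := by ring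
  have w24 : x 4 - x 2 = -(x 2 - x 4) := by ring
  have w25 : x 5 - x 2 = -(x 2 - x 5) := by ring
  have w34 : x 4 - x 3 = -(x 3 - x 4) := by ring
  have w35 : x 5 - x 3 = -(x 3 - x 5) := by ring
  have w45 : x 5 - x 4 = -(x 4 - x 5) := by ring
  rw [w01, w02, w03, w04, w05, w12, w13, w14, w15, w23, w24, w25, w34, w35, w45]
  generalize x 0 - x 1 = q01
  generalize x 0 - x 2 = q02
  generalize x 0 - x 3 = q03
  generalize x 0 - x 4 = q04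
  generalize x 0 - x 5 = q05
  generalize x 1 - x 2 = q12
  generalize x 1 - x 3 = q13
  generalize x 1 - x 4 = q14
  generalize x 1 - x 5 = q15
  generalize x 2 - x 3 = q23
  generalize x 2 - x 4 = q24
  generalize x 2 - x 5 = q25
  generalize x 3 - x 4 = q34
  generalize x 3 - x 5 = q35
  generalize x 4 - x 5 = q45
  ring

theorem mulB6 (x : Fin 6 → K) (h0 : x 0 + x 1 + x 2 + x 3 + x 4 + x 5 = 0) :
    B6 (e6 x) (a6 x) (b6 x) (c6 x) (d6 x) * (Matrix.vandermonde x).transpose =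
      Matrix.diagonal (![1, -1, -1, -1, -1, -1] : Fin 6 → K) *
        ((Matrix.vandermonde x).transpose *
        Matrix.diagonal fun i => c6 x + 2*b6 x*x i + 3*a6 x*x i^2 + 4*e6 x*x i^3 + 6*x i^5) := by
  ext k i
  have hr := root6 x h0 i
  rw [Matrix.diagonal_mul, Matrix.mul_diagonal, Matrix.mul_apply, Fin.sum_univ_six]
  simp only [Matrix.transpose_apply, Matrix.vandermonde_apply]
  generalize x i = t at hr ⊢
  generalize e6 x = e at hr ⊢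
  generalize a6 x = a at hr ⊢
  generalize b6 x = b at hr ⊢
  generalize c6 x = c at hr ⊢
  generalize d6 x = d at hr ⊢
  fin_cases k
  · simp [B6]
  · simp [B6]
    linear_combination 6 * hr
  · simp [B6]
    linear_combination 6 * t * hr
  · simp [B6]
    linear_combination (6 * t ^ 2 - 2 * e) * hr
  · simp [B6]
    linear_combination (6 * t ^ 3 - 2 * e * t - 3 * a) * hr
  · simp [B6]
    linear_combination (6 * t ^ 4 - 2 * e * t ^ 2 - 3 * a * t - (4 * b - 2 * e ^ 2)) * hr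

/-- The discriminant formula. -/
theorem disc6 (x : Fin 6 → K) (hx : Function.Injective x)
    (h0 : x 0 + x 1 + x 2 + x 3 + x 4 + x 5 = 0) :
    (Matrix.vandermonde x).det ^ 2 = D6 (e6 x) (a6 x) (b6 x) (c6 x) (d6 x) := by
  have hV : (Matrix.vandermonde x).det ≠ 0 := Matrix.det_vandermonde_ne_zero_iff.2 hx
  have h := congrArg Matrix.det (mulB6 x h0)
  rw [Matrix.det_mul, Matrix.det_mul, Matrix.det_mul, Matrix.det_transpose, Matrix.det_diagonal,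
    Matrix.det_diagonal, detB6, prodder6 x h0] at h
  have h1 : ∏ i, (![1, -1, -1, -1, -1, -1] : Fin 6 → K) i = -1 := by
    simp [Fin.prod_univ_succ]
  rw [h1] at h
  have h2 : ((Matrix.vandermonde x).det ^ 2 - D6 (e6 x) (a6 x) (b6 x) (c6 x) (d6 x))
      * (Matrix.vandermonde x).det = 0 := by
    linear_combination -h
  exact sub_eq_zero.1 ((mul_eq_zero.1 h2).resolve_right hV)

end disc

end Pool.Agent.NOE
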