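import Pool.Agent.NOE.Stmts

/-!
# Equivariance of the kernel vector
-/

open MvPolynomial IntermediateField
open Pool.Agent.Lib_helper20.Noether Pool.Agent.Lib_helper20.Noether.ARTIN

namespace Pool.Agent.NOE

namespace EQV

variable {ι : Type} [Fintype ι] [DecidableEq ι]

/-- The transported vector. -/
noncomputable def tv (c : ι → E ι) (σ : Equiv.Perm ι) (j : ι) : E ι := perm σ (c (σ⁻¹ j))

theorem tv_ker {c : ι → E ι} (h : IsKer (x : ι → E ι) c) (σ : Equiv.Perm ι) (i : ι) :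
    ∑ j, ((x i : E ι) - x j)⁻¹ * tv c σ j = 0 := by
  have h1 := h.ker (σ⁻¹ i)
  have h2 := congrArg (perm σ) h1
  rw [map_zero, map_sum] at h2
  rw [← h2]
  symm
  apply Fintype.sum_equiv σ
  intro k
  rw [map_mul, map_inv₀, map_sub, perm_x, perm_x]
  unfold tv
  have e1 : σ (σ⁻¹ i) = i := σ.apply_symm_apply i
  have e2 : σ⁻¹ (σ k) = k := σ.symm_apply_apply k
  rw [e1, e2]

theorem tv_sum {c : ι → E ι} (h : IsKer (x : ι → E ι) c) (σ : Equiv.Perm ι) :
    ∑ j, tv c σ j = 1 := by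
  have h2 := congrArg (perm σ) h.sum
  rw [map_one, map_sum] at h2
  rw [← h2]
  symm
  apply Fintype.sum_equiv σ
  intro k
  unfold tv
  have e2 : σ⁻¹ (σ k) = k := σ.symm_apply_apply k
  rw [e2]

theorem tv_eq {c : ι → E ι} (h : IsKer (x : ι → E ι) c) (σ : Equiv.Perm ι) (j : ι) :
    tv c σ j = c j := by
  have h1 := h.uniq (fun j => tv c σ j - c j) ?_ ?_
  · have h2 := congrFun h1 j
    exact sub_eq_zero.1 h2
  · intro i
    have e : ∀ j, ((x i : E ι) - x j)⁻¹ * (tv c σ j - c j) =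
        ((x i : E ι) - x j)⁻¹ * tv c σ j - ((x i : E ι) - x j)⁻¹ * c j := fun j => mul_sub _ _ _
    rw [Finset.sum_congr rfl (fun j _ => e j), Finset.sum_sub_distrib, tv_ker h σ i, h.ker i,
      sub_zero]
  · rw [Finset.sum_sub_distrib, tv_sum h σ, h.sum, sub_self]

theorem perm_c {c : ι → E ι} (h : IsKer (x : ι → E ι) c) (σ : Equiv.Perm ι) (i : ι) :
    perm σ (c i) = c (σ i) := by
  have h1 := tv_eq h σ (σ i)
  unfold tv at h1
  have e2 : σ⁻¹ (σ i) = i := σ.symm_apply_apply i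
  rw [e2] at h1
  exact h1

theorem c_ne {c : ι → E ι} (h : IsKer (x : ι → E ι) c) (i : ι) : c i ≠ 0 := by
  intro h0
  have h1 : ∀ j, c j = 0 := by
    intro j
    have h2 := perm_c h (Equiv.swap i j) i
    rw [h0, map_zero, Equiv.swap_apply_left] at h2
    exact h2.symm
  have h3 := h.sum
  rw [Finset.sum_congr rfl (fun j _ => h1 j), Finset.sum_const_zero] at h3
  exact zero_ne_one h3

end EQV

theorem EQV_thm : Stmt_EQV := by
  intro ι _ _ c h
  exact ⟨fun σ i => EQV.perm_c h σ i, fun i => EQV.c_ne h i⟩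

end Pool.Agent.NOE
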