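import Pool.Agent.NOE.Stmts

/-!
# FLDA: the field of invariants of the alternating group from the canonical pencil
-/

open MvPolynomial IntermediateField
open Pool.Agent.Lib_helper20.Noether Pool.Agent.Lib_helper20.Noether.ARTIN

namespace Pool.Agent.NOE

namespace FLDA

variable {n : ℕ}

theorem map_FF (σ : Equiv.Perm (Fin n)) :
    (FF (x : Fin n → E (Fin n))).map (perm σ : E (Fin n) →+* E (Fin n)) = FF x := by
  unfold FF
  rw [Polynomial.map_prod]
  have h : ∀ i : Fin n, (Polynomial.X - Polynomial.C (x i : E (Fin n))).map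
      (perm σ : E (Fin n) →+* E (Fin n)) = Polynomial.X - Polynomial.C (x (σ i)) := by
    intro i
    rw [Polynomial.map_sub, Polynomial.map_X, Polynomial.map_C]
    have : (perm σ : E (Fin n) →+* E (Fin n)) (x i) = x (σ i) := perm_x σ i
    rw [this]
  rw [Finset.prod_congr rfl fun i _ => h i]
  exact Equiv.prod_comp σ (fun i => Polynomial.X - Polynomial.C (x i : E (Fin n)))

theorem map_GG {c : Fin n → E (Fin n)} (σ : Equiv.Perm (Fin n))
    (hc : ∀ i, perm σ (c i) = c (σ i)) :
    (GG (x : Fin n → E (Fin n)) c).map (perm σ : E (Fin n) →+* E (Fin n)) = GG x c := by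
  unfold GG
  rw [Polynomial.map_sum]
  have h : ∀ i : Fin n, (Polynomial.C (c i ^ 2) * ∏ j ∈ Finset.univ.erase i,
      (Polynomial.X - Polynomial.C (x j : E (Fin n)))).map
      (perm σ : E (Fin n) →+* E (Fin n)) = Polynomial.C (c (σ i) ^ 2) *
        ∏ j ∈ Finset.univ.erase (σ i), (Polynomial.X - Polynomial.C (x j : E (Fin n))) := by
    intro i
    rw [Polynomial.map_mul, Polynomial.map_C, Polynomial.map_prod]
    have h1 : (perm σ : E (Fin n) →+* E (Fin n)) (c i ^ 2) = c (σ i) ^ 2 := by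
      rw [map_pow]
      congr 1
      exact hc i
    rw [h1]
    congr 1
    refine Finset.prod_bij (fun j _ => σ j) ?_ ?_ ?_ ?_
    · intro j hj
      rw [Finset.mem_erase] at hj ⊢
      exact ⟨fun h => hj.1 (σ.injective h), Finset.mem_univ _⟩
    · intro a _ b _ hab
      exact σ.injective hab
    · intro b hb
      rw [Finset.mem_erase] at hb
      refine ⟨σ.symm b, ?_, by simp⟩
      rw [Finset.mem_erase]
      refine ⟨fun h => hb.1 ?_, Finset.mem_univ _⟩
      rw [← h]
      simp
    · intro j _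
      rw [Polynomial.map_sub, Polynomial.map_X, Polynomial.map_C]
      have : (perm σ : E (Fin n) →+* E (Fin n)) (x j) = x (σ j) := perm_x σ j
      rw [this]
  rw [Finset.sum_congr rfl fun i _ => h i]
  exact Equiv.sum_comp σ (fun i => Polynomial.C (c i ^ 2) *
        ∏ j ∈ Finset.univ.erase i, (Polynomial.X - Polynomial.C (x j : E (Fin n))))

theorem perm_sum (σ : Equiv.Perm (Fin n)) :
    perm σ (∑ i, (x i : E (Fin n))) = ∑ i, x i := by
  rw [map_sum, Finset.sum_congr rfl fun i _ => perm_x σ i]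
  exact Equiv.sum_comp σ (fun i => (x i : E (Fin n)))

theorem perm_prod {c : Fin n → E (Fin n)} (σ : Equiv.Perm (Fin n))
    (hc : ∀ i, perm σ (c i) = c (σ i)) : perm σ (∏ i, c i) = ∏ i, c i := by
  rw [map_prod, Finset.prod_congr rfl fun i _ => hc i]
  exact Equiv.prod_comp σ c

theorem coeff_inv {P : Polynomial (E (Fin n))} (σ : Equiv.Perm (Fin n))
    (h : P.map (perm σ : E (Fin n) →+* E (Fin n)) = P) (k : ℕ) :
    perm σ (P.coeff k) = P.coeff k := by
  have h1 := congrArg (fun Q => Polynomial.coeff Q k) h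
  beta_reduce at h1
  rw [Polynomial.coeff_map] at h1
  exact h1

theorem map_F1 {c : Fin n → E (Fin n)} (σ : Equiv.Perm (Fin n))
    (hc : ∀ i, perm σ (c i) = c (σ i)) :
    (F1 (x : Fin n → E (Fin n)) c).map (perm σ : E (Fin n) →+* E (Fin n)) = F1 x c := by
  unfold F1
  rw [Polynomial.map_add, Polynomial.map_mul, Polynomial.map_C, map_FF, map_GG σ hc]
  have h1 : (perm σ : E (Fin n) →+* E (Fin n)) (∑ i, x i) = ∑ i, x i := perm_sum σ
  rw [h1]

/-- The Vandermonde determinant of the variables. -/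
theorem algebraMap_vdm :
    algebraMap (MvPolynomial (Fin n) ℂ) (E (Fin n)) (vdm n) =
      (Matrix.vandermonde (x : Fin n → E (Fin n))).det := by
  unfold vdm
  rw [RingHom.map_det]
  congr 1
  ext i j
  simp [Matrix.vandermonde, x]

theorem perm_det (σ : Equiv.Perm (Fin n)) :
    perm σ (Matrix.vandermonde (x : Fin n → E (Fin n))).det =
      Equiv.Perm.sign σ * (Matrix.vandermonde (x : Fin n → E (Fin n))).det := by
  rw [← algebraMap_vdm, perm_algebraMap, rename_vdm, map_mul]
  congr 1
  rcases Int.units_eq_one_or (Equiv.Perm.sign σ) with h | h <;> simp [h]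

end FLDA

open FLDA in
theorem FLDA_thm (hE : Stmt_EQV) (hS : Stmt_SYM) : Stmt_FLDA := by
  intro n hn c hc
  obtain ⟨hp, h0⟩ := hE (Fin n) c hc
  apply le_antisymm
  · refine sup_le ?_ ?_
    · unfold MM
      rw [adjoin_le_iff]
      rintro f ((⟨k, rfl⟩ | ⟨k, rfl⟩) | hf)
      · intro σ _
        exact coeff_inv σ (map_F1 σ (hp σ)) k
      · intro σ _
        exact coeff_inv σ (map_GG σ (hp σ)) k
      · intro σ hσ
        rw [Set.mem_singleton_iff.1 hf]
        unfold kap
        rw [map_mul, perm_det, perm_prod σ (hp σ), Equiv.Perm.mem_alternatingGroup.1 hσ]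
        simp
    · rw [adjoin_le_iff]
      rintro f hf σ _
      rw [Set.mem_singleton_iff.1 hf]
      exact perm_sum σ
  · set M : IntermediateField ℂ (E (Fin n)) := MM c ⊔ adjoin ℂ {∑ i, x i} with hM
    have hle : MM c ≤ M := le_sup_left
    have hsub : ({f | ∃ k, f = (F1 x c).coeff k} ∪ {f | ∃ k, f = (GG x c).coeff k} ∪
        {kap x c} : Set (E (Fin n))) ⊆ MM c := subset_adjoin ℂ _
    have m1 : ∀ k, (F1 (x : Fin n → E (Fin n)) c).coeff k ∈ M :=
      fun k => hle (hsub (Or.inl (Or.inl ⟨k, rfl⟩)))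
    have m2 : ∀ k, (GG (x : Fin n → E (Fin n)) c).coeff k ∈ M :=
      fun k => hle (hsub (Or.inl (Or.inr ⟨k, rfl⟩)))
    have m3 : kap (x : Fin n → E (Fin n)) c ∈ M := hle (hsub (Or.inr rfl))
    have m4 : (∑ i, x i : E (Fin n)) ∈ M := by
      have h1 : adjoin ℂ {(∑ i, x i : E (Fin n))} ≤ M := le_sup_right
      exact h1 (subset_adjoin ℂ _ rfl)
    have m5 : ∀ k, (FF (x : Fin n → E (Fin n))).coeff k ∈ M := by
      intro k
      have h1 : (FF (x : Fin n → E (Fin n))).coeff k =
          (F1 x c).coeff k - (∑ i, x i) * (GG x c).coeff k := by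
        unfold F1
        rw [Polynomial.coeff_add, Polynomial.coeff_C_mul]
        ring
      rw [h1]
      exact sub_mem (m1 k) (mul_mem m4 (m2 k))
    have m6 : (∏ i, c i) ∈ M := hS n M m5 (fun σ _ => perm_prod σ (hp σ))
    have hprod : (∏ i, c i) ≠ 0 := Finset.prod_ne_zero_iff.2 fun i _ => h0 i
    refine inv_le hn M (esymm_of_coeff M m5) ?_
    rw [algebraMap_vdm]
    have h2 : (Matrix.vandermonde (x : Fin n → E (Fin n))).det = kap x c / ∏ i, c i := by
      unfold kap
      rw [mul_div_cancel_right₀ _ hprod]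
    rw [h2]
    exact div_mem m3 m6

end Pool.Agent.NOE
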