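import Pool.Agent.NOE.Stmts

/-!
# The sum of the variables is in the field generated by the pencil and the last variable
-/

open MvPolynomial IntermediateField
open Pool.Agent.Lib_helper20.Noether

namespace Pool.Agent.NOE

namespace FLDB

theorem eval_mem {K : Type} [Field K] [Algebra ℂ K] (L : IntermediateField ℂ K)
    (p : Polynomial K) (hp : ∀ k, p.coeff k ∈ L) (t : K) (ht : t ∈ L) : p.eval t ∈ L := by
  rw [Polynomial.eval_eq_sum_range]
  exact sum_mem fun k _ => mul_mem (hp k) (pow_mem ht k)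

theorem eval_FF {K ι : Type} [Field K] [Fintype ι] [DecidableEq ι] (x : ι → K) (i : ι) :
    (FF x).eval (x i) = 0 := by
  unfold FF
  rw [Polynomial.eval_prod]
  exact Finset.prod_eq_zero (Finset.mem_univ i) (by simp)

theorem eval_GG {K ι : Type} [Field K] [Fintype ι] [DecidableEq ι] (x c : ι → K) (i : ι) :
    (GG x c).eval (x i) = c i ^ 2 * ∏ j ∈ Finset.univ.erase i, (x i - x j) := by
  unfold GG
  rw [Polynomial.eval_finsetSum, Finset.sum_eq_single i]
  · simp [Polynomial.eval_prod]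
  · intro k _ hk
    rw [Polynomial.eval_mul, Polynomial.eval_prod]
    rw [Finset.prod_eq_zero (i := i)]
    · simp
    · exact Finset.mem_erase.mpr ⟨hk.symm, Finset.mem_univ i⟩
    · simp
  · intro h
    exact absurd (Finset.mem_univ i) h

theorem x_inj {ι : Type} : Function.Injective (x : ι → E ι) := by
  intro i j h
  unfold x at h
  exact MvPolynomial.X_injective (IsFractionRing.injective (MvPolynomial ι ℂ) (E ι) h)

end FLDB

open FLDB

theorem FLDB_thm (hE : Stmt_EQV) : Stmt_FLDB := by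
  intro n _ c hc
  have hc0 := (hE (Fin (n + 1)) c hc).2
  set t : E (Fin (n + 1)) := x (Fin.last n) with ht
  set L := MM c ⊔ adjoin ℂ {t} with hL
  have htL : t ∈ L := (le_sup_right : adjoin ℂ {t} ≤ L) (subset_adjoin ℂ _ (Set.mem_singleton t))
  have hM : MM c ≤ L := le_sup_left
  have hF1 : ∀ k, (F1 (x : Fin (n + 1) → E (Fin (n + 1))) c).coeff k ∈ L := by
    intro k
    exact hM (subset_adjoin ℂ _ (Or.inl (Or.inl ⟨k, rfl⟩)))
  have hGG : ∀ k, (GG (x : Fin (n + 1) → E (Fin (n + 1))) c).coeff k ∈ L := by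
    intro k
    exact hM (subset_adjoin ℂ _ (Or.inl (Or.inr ⟨k, rfl⟩)))
  have h1 := eval_mem L _ hF1 t htL
  have h2 := eval_mem L _ hGG t htL
  have h3 : (F1 (x : Fin (n + 1) → E (Fin (n + 1))) c).eval t =
      (∑ i, x i) * (GG (x : Fin (n + 1) → E (Fin (n + 1))) c).eval t := by
    unfold F1
    rw [Polynomial.eval_add, Polynomial.eval_mul, Polynomial.eval_C, ht, eval_FF, zero_add]
  have h4 : (GG (x : Fin (n + 1) → E (Fin (n + 1))) c).eval t ≠ 0 := by
    rw [ht, eval_GG]
    refine mul_ne_zero (pow_ne_zero 2 (hc0 _)) ?_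
    rw [Finset.prod_ne_zero_iff]
    intro j hj
    rw [sub_ne_zero]
    intro h
    exact (Finset.mem_erase.mp hj).1 (x_inj h).symm
  have h5 : (∑ i, x i : E (Fin (n + 1))) =
      (F1 (x : Fin (n + 1) → E (Fin (n + 1))) c).eval t *
        ((GG (x : Fin (n + 1) → E (Fin (n + 1))) c).eval t)⁻¹ := by
    rw [h3, mul_assoc, mul_inv_cancel₀ h4, mul_one]
  rw [h5]
  exact mul_mem h1 (inv_mem h2)

end Pool.Agent.NOE
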