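import Pool.Agent.NOE.Stmts

/-!
# ISO: simple transcendental extensions of a field have the same number of generators
-/

open MvPolynomial IntermediateField
open Pool.Agent.Lib_helper20.Noether

namespace Pool.Agent.NOE

namespace ISO

variable {K : Type} [Field K] [Algebra ℂ K]

/-- An algebra isomorphism between two intermediate fields maps generators to generators. -/
theorem gens {ι : Type} (L L' : IntermediateField ℂ K) (φ : L ≃ₐ[ℂ] L') (u : ι → K)
    (hu : adjoin ℂ (Set.range u) = L) : ∃ w : ι → K, adjoin ℂ (Set.range w) = L' := by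
  have hmem : ∀ i, u i ∈ L := by
    intro i
    rw [← hu]
    exact subset_adjoin _ _ ⟨i, rfl⟩
  have h1 : adjoin ℂ (Set.range fun i => (⟨u i, hmem i⟩ : L)) = ⊤ := by
    apply map_injective L.val
    rw [adjoin_map, ← AlgHom.fieldRange_eq_map, fieldRange_val, ← Set.range_comp]
    exact hu
  refine ⟨fun i => (φ ⟨u i, hmem i⟩ : K), ?_⟩
  have h2 : Set.range (fun i => (φ ⟨u i, hmem i⟩ : K)) =
      (L'.val.comp φ.toAlgHom) '' Set.range (fun i => (⟨u i, hmem i⟩ : L)) := by
    rw [← Set.range_comp]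
    rfl
  rw [h2, ← adjoin_map, h1, ← AlgHom.fieldRange_eq_map]
  ext y
  constructor
  · rintro ⟨a, rfl⟩
    exact (φ a).2
  · intro hy
    refine ⟨φ.symm ⟨y, hy⟩, ?_⟩
    change ((φ (φ.symm ⟨y, hy⟩) : L') : K) = y
    rw [AlgEquiv.apply_symm_apply]

end ISO

open ISO in
/-- **ISO** -/
theorem ISO_thm : Stmt_ISO := by
  intro K ι _ _ M p t u hp ht hu
  have e : adjoin M {p} ≃ₐ[M] adjoin M {t} :=
    (RatFunc.algEquivOfTranscendental p hp).symm.trans (RatFunc.algEquivOfTranscendental t ht)
  rw [← restrictScalars_adjoin_eq_sup] at hu ⊢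
  exact gens ((adjoin M {p}).restrictScalars ℂ) ((adjoin M {t}).restrictScalars ℂ)
    (e.restrictScalars ℂ) u hu

end Pool.Agent.NOE
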