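import Pool.Agent.Lib_helper20.Noether.ARTIN
import Pool.Agent.Lib_helper20.Noether.COUNT

/-!
# Generators of the field of invariants of the alternating group
-/

open MvPolynomial IntermediateField
open Pool.Agent.Lib_helper20.Noether Pool.Agent.Lib_helper20.Noether.ARTIN

namespace Pool.Agent.NOE

/-- Symmetric polynomials are in every field containing the elementary ones. -/
theorem symm_mem {n : ℕ} (M : IntermediateField ℂ (E (Fin n)))
    (h : ∀ k : Fin n,
      algebraMap (MvPolynomial (Fin n) ℂ) (E (Fin n)) (esymm (Fin n) ℂ (k + 1)) ∈ M)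
    (p : MvPolynomial (Fin n) ℂ) (hp : p.IsSymmetric) :
    algebraMap (MvPolynomial (Fin n) ℂ) (E (Fin n)) p ∈ M := by
  obtain ⟨q, hq⟩ := esymmAlgHom_fin_surjective ℂ (le_refl n) ⟨p, hp⟩
  have h1 : (esymmAlgHom (Fin n) ℂ n q).val = p := congrArg Subtype.val hq
  rw [esymmAlgHom_apply] at h1
  rw [← h1]
  clear h1 hq hp
  induction q using MvPolynomial.induction_on with
  | C r =>
    rw [aeval_C]
    have : algebraMap (MvPolynomial (Fin n) ℂ) (E (Fin n)) (algebraMap ℂ _ r) =
        algebraMap ℂ (E (Fin n)) r := (IsScalarTower.algebraMap_apply ℂ _ _ r).symm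
    rw [this]
    exact M.algebraMap_mem r
  | add a b ha hb =>
    rw [map_add, map_add]
    exact add_mem ha hb
  | mul_X a i ha =>
    rw [map_mul, aeval_X, map_mul]
    exact mul_mem ha (h i)

/-- The Vandermonde polynomial. -/
noncomputable def vdm (n : ℕ) : MvPolynomial (Fin n) ℂ :=
  (Matrix.vandermonde (X : Fin n → MvPolynomial (Fin n) ℂ)).det

theorem vdm_ne_zero (n : ℕ) : vdm n ≠ 0 :=
  Matrix.det_vandermonde_ne_zero_iff.2 X_injective

theorem vandermonde_perm {R : Type*} [CommRing R] {n : ℕ} (v : Fin n → R)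
    (σ : Equiv.Perm (Fin n)) :
    (Matrix.vandermonde (v ∘ σ)).det = Equiv.Perm.sign σ * (Matrix.vandermonde v).det := by
  have h : Matrix.vandermonde (v ∘ σ) = (Matrix.vandermonde v).submatrix σ id := by
    ext i j
    simp [Matrix.vandermonde]
  rw [h, Matrix.det_permute]

theorem rename_vdm (n : ℕ) (σ : Equiv.Perm (Fin n)) :
    rename σ (vdm n) = Equiv.Perm.sign σ * vdm n := by
  unfold vdm
  rw [← vandermonde_perm]
  have h := (rename σ : MvPolynomial (Fin n) ℂ →ₐ[ℂ] _).map_det
    (Matrix.vandermonde (X : Fin n → MvPolynomial (Fin n) ℂ))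
  rw [h]
  congr 1
  ext i j
  simp [Matrix.vandermonde]

theorem rename_prod_perm (n : ℕ) (q : MvPolynomial (Fin n) ℂ) (σ : Equiv.Perm (Fin n)) :
    rename σ (∏ τ : Equiv.Perm (Fin n), rename τ q) = ∏ τ : Equiv.Perm (Fin n), rename τ q := by
  rw [map_prod]
  simp_rw [rename_rename]
  exact Fintype.prod_equiv (Equiv.mulLeft σ) _ _ fun τ => rfl

/-- The field of invariants of the alternating group is contained in every field which contains
the elementary symmetric functions and the Vandermonde determinant. -/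
theorem inv_le {n : ℕ} (hn : 2 ≤ n) (M : IntermediateField ℂ (E (Fin n)))
    (h : ∀ k : Fin n,
      algebraMap (MvPolynomial (Fin n) ℂ) (E (Fin n)) (esymm (Fin n) ℂ (k + 1)) ∈ M)
    (hv : algebraMap (MvPolynomial (Fin n) ℂ) (E (Fin n)) (vdm n) ∈ M) :
    invField (alternatingGroup (Fin n)) ≤ M := by
  intro f hf
  set A := algebraMap (MvPolynomial (Fin n) ℂ) (E (Fin n)) with hA
  have hinj : Function.Injective A := IsFractionRing.injective _ _
  obtain ⟨p, q, hq, rfl⟩ := IsFractionRing.div_surjective (A := MvPolynomial (Fin n) ℂ) f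
  have hq0 : q ≠ 0 := nonZeroDivisors.ne_zero hq
  -- the symmetric denominator
  set Q : MvPolynomial (Fin n) ℂ := ∏ τ : Equiv.Perm (Fin n), rename τ q with hQ
  have hren0 : ∀ τ : Equiv.Perm (Fin n), rename τ q ≠ 0 := fun τ hτ =>
    hq0 ((rename_injective τ τ.injective) (by rw [hτ, map_zero]))
  have hQ0 : Q ≠ 0 := Finset.prod_ne_zero_iff.2 fun τ _ => hren0 τ
  have hQs : Q.IsSymmetric := fun σ => rename_prod_perm n q σ
  set P : MvPolynomial (Fin n) ℂ :=
    p * ∏ τ ∈ (Finset.univ.erase (1 : Equiv.Perm (Fin n))), rename τ q with hP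
  have hQ1 : Q = q * ∏ τ ∈ (Finset.univ.erase (1 : Equiv.Perm (Fin n))), rename τ q := by
    rw [hQ, ← Finset.mul_prod_erase Finset.univ _ (Finset.mem_univ (1 : Equiv.Perm (Fin n)))]
    congr 1
    simp
  have hfP : A p / A q = A P / A Q := by
    rw [div_eq_div_iff (fun h0 => hq0 (hinj (by rw [h0, map_zero])))
      (fun h0 => hQ0 (hinj (by rw [h0, map_zero]))), ← map_mul, ← map_mul, hQ1, hP]
    congr 1
    ring
  clear_value P Q
  have hPinv : ∀ σ ∈ alternatingGroup (Fin n), rename σ P = P := by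
    intro σ hσ
    apply hinj
    have h1 := hf σ hσ
    rw [hfP, map_div₀, perm_algebraMap, perm_algebraMap, hQs σ] at h1
    exact (div_left_inj' (fun h0 => hQ0 (hinj (by rw [h0, map_zero])))).1 h1
  -- an odd permutation
  have hlt0 : 0 < n := by omega
  have hlt1 : 1 < n := by omega
  set τ : Equiv.Perm (Fin n) := Equiv.swap ⟨0, hlt0⟩ ⟨1, hlt1⟩ with hτ
  have hτs : Equiv.Perm.sign τ = -1 :=
    Equiv.Perm.sign_swap (by simp [Fin.ext_iff])
  have hττ : ∀ g : MvPolynomial (Fin n) ℂ, rename τ (rename τ g) = g := by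
    intro g
    rw [rename_rename]
    have : (⇑τ ∘ ⇑τ) = id := by
      funext i
      simp [hτ]
    rw [this, rename_id, AlgHom.id_apply]
  have key : ∀ σ : Equiv.Perm (Fin n), (Equiv.Perm.sign σ = 1 → rename σ P = P ∧
      rename σ (rename τ P) = rename τ P) ∧ (Equiv.Perm.sign σ = -1 → rename σ P = rename τ P ∧
      rename σ (rename τ P) = P) := by
    intro σ
    constructor
    · intro hs
      refine ⟨hPinv σ hs, ?_⟩
      have h1 : rename (τ * σ * τ : Equiv.Perm (Fin n)) P = P := hPinv _ (by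
        rw [Equiv.Perm.mem_alternatingGroup, map_mul, map_mul, hs, hτs]; rfl)
      have h2 := congrArg (rename τ) h1
      have h3 : ∀ g : MvPolynomial (Fin n) ℂ, rename (τ * σ * τ : Equiv.Perm (Fin n)) g =
          rename τ (rename σ (rename τ g)) := by
        intro g
        rw [rename_rename, rename_rename]
        rfl
      rw [h3, hττ] at h2
      exact h2
    · intro hs
      have h1 : rename (τ * σ : Equiv.Perm (Fin n)) P = P := hPinv _ (by
        rw [Equiv.Perm.mem_alternatingGroup, map_mul, hs, hτs]; rfl)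
      have h1' : rename (σ * τ : Equiv.Perm (Fin n)) P = P := hPinv _ (by
        rw [Equiv.Perm.mem_alternatingGroup, map_mul, hs, hτs]; rfl)
      have h3 : ∀ g : MvPolynomial (Fin n) ℂ, rename (τ * σ : Equiv.Perm (Fin n)) g =
          rename τ (rename σ g) := by
        intro g
        rw [rename_rename]
        rfl
      have h3' : ∀ g : MvPolynomial (Fin n) ℂ, rename (σ * τ : Equiv.Perm (Fin n)) g =
          rename σ (rename τ g) := by
        intro g
        rw [rename_rename]
        rfl
      rw [h3] at h1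
      rw [h3'] at h1'
      refine ⟨?_, h1'⟩
      have h2 := congrArg (rename τ) h1
      rw [hττ] at h2
      exact h2
  have hsign : ∀ σ : Equiv.Perm (Fin n), Equiv.Perm.sign σ = 1 ∨ Equiv.Perm.sign σ = -1 :=
    fun σ => Int.units_eq_one_or _
  have hS : (P + rename τ P).IsSymmetric := by
    intro σ
    rcases hsign σ with hs | hs
    · rw [map_add, ((key σ).1 hs).1, ((key σ).1 hs).2]
    · rw [map_add, ((key σ).2 hs).1, ((key σ).2 hs).2, add_comm]
  have hT : ((P - rename τ P) * vdm n).IsSymmetric := by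
    intro σ
    rcases hsign σ with hs | hs
    · rw [map_mul, map_sub, ((key σ).1 hs).1, ((key σ).1 hs).2, rename_vdm, hs]
      simp
    · rw [map_mul, map_sub, ((key σ).2 hs).1, ((key σ).2 hs).2, rename_vdm, hs]
      simp
      ring
  have mS := symm_mem M h _ hS
  have mT := symm_mem M h _ hT
  have mQ := symm_mem M h _ hQs
  have hvne : A (vdm n) ≠ 0 := fun h0 => vdm_ne_zero n (hinj (by rw [h0, map_zero]))
  rw [hfP]
  refine div_mem ?_ mQ
  have h2 : A P = (A (P + rename τ P) + A ((P - rename τ P) * vdm n) / A (vdm n)) / 2 := by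
    rw [map_mul, mul_div_cancel_right₀ _ hvne, map_add, map_sub]
    ring
  rw [h2]
  refine div_mem (add_mem mS (div_mem mT hv)) ?_
  exact_mod_cast _root_.natCast_mem M 2

end Pool.Agent.NOE
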