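import Pool.Agent.NOE.Stmts

/-!
# Existence and uniqueness of the normalised kernel vector
-/

namespace Pool.Agent.NOE.KER

variable {K ι : Type} [Field K] [Fintype ι] [DecidableEq ι]

lemma transpose_AM (x : ι → K) : (AM x).transpose = -(AM x) := by
  ext i j
  simp only [AM, Matrix.transpose_apply, Matrix.of_apply, Matrix.neg_apply]
  rw [← neg_sub (x i) (x j), inv_neg]

lemma det_AM [CharZero K] (x : ι → K) (h : Odd (Fintype.card ι)) : (AM x).det = 0 := by
  have h1 := Matrix.det_transpose (AM x)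
  rw [transpose_AM, Matrix.det_neg, h.neg_one_pow] at h1
  have h2 : (2 : K) * (AM x).det = 0 := by linear_combination -h1
  exact (mul_eq_zero.mp h2).resolve_left two_ne_zero

lemma mulVec_AM (x v : ι → K) (i : ι) : (AM x).mulVec v i = ∑ j, (x i - x j)⁻¹ * v j := rfl

lemma mulVec_JM (v : ι → K) (i : ι) : (JM K ι).mulVec v i = ∑ j, v j := by
  simp [JM, Matrix.mulVec, dotProduct]

lemma uniq_of_det (x : ι → K) (hd : (AM x + JM K ι).det ≠ 0) (v : ι → K)
    (hv : ∀ i, ∑ j, (x i - x j)⁻¹ * v j = 0) (hs : ∑ i, v i = 0) : v = 0 := by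
  by_contra hne
  apply hd
  refine Matrix.exists_mulVec_eq_zero_iff.mp ⟨v, hne, ?_⟩
  funext i
  rw [Matrix.add_mulVec, Pi.add_apply, mulVec_AM, mulVec_JM, hv i, hs, add_zero, Pi.zero_apply]

end Pool.Agent.NOE.KER

namespace Pool.Agent.NOE

theorem KER_thm : Stmt_KER := by
  intro K ι _ _ _ _ x hodd hd
  obtain ⟨v, hv0, hv⟩ := Matrix.exists_mulVec_eq_zero_iff.mpr (KER.det_AM x hodd)
  have hker : ∀ i, ∑ j, (x i - x j)⁻¹ * v j = 0 := by
    intro i
    have := congrFun hv i
    rwa [KER.mulVec_AM, Pi.zero_apply] at this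
  have hs : ∑ i, v i ≠ 0 := fun h => hv0 (KER.uniq_of_det x hd v hker h)
  refine ⟨fun i => v i / ∑ k, v k, ?_, ?_, KER.uniq_of_det x hd⟩
  · intro i
    have h1 : ∑ j, (x i - x j)⁻¹ * (v j / ∑ k, v k) =
        (∑ j, (x i - x j)⁻¹ * v j) / ∑ k, v k := by
      rw [Finset.sum_div]
      exact Finset.sum_congr rfl fun j _ => (mul_div_assoc _ _ _).symm
    rw [h1, hker i, zero_div]
  · rw [← Finset.sum_div]
    exact div_self hs

end Pool.Agent.NOE
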