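import Pool.Agent.NOE.Stmts

/-!
# ODD: from `A_m` to `A_(m+1)` for even `m`
-/

open MvPolynomial IntermediateField
open Pool.Agent.Lib_helper20.Noether

namespace Pool.Agent.NOE

namespace ODD

theorem x_inj (ι : Type) : Function.Injective (x : ι → E ι) := by
  intro i j h
  have h2 := IsFractionRing.injective (MvPolynomial ι ℂ) (E ι) h
  exact X_injective h2

/-- A derivation which kills the generators kills the field. -/
theorem kill {K : Type} [Field K] [Algebra ℂ K] (D : Derivation ℂ K K) (S : Set K)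
    (h : ∀ f ∈ S, D f = 0) : ∀ f ∈ adjoin ℂ S, D f = 0 := by
  intro f hf
  induction hf using IntermediateField.adjoin_induction with
  | mem a ha => exact h a ha
  | algebraMap r => exact D.map_algebraMap r
  | add a b _ _ ha hb => rw [map_add, ha, hb, add_zero]
  | inv a _ ha => rw [Derivation.leibniz_inv, ha, smul_zero]
  | mul a b _ _ ha hb => rw [Derivation.leibniz, ha, hb, smul_zero, smul_zero, add_zero]

theorem range_snoc {m : ℕ} {K : Type} (v : Fin m → K) (p : K) :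
    Set.range (Fin.snoc (α := fun _ => K) v p : Fin (m + 1) → K) = Set.range v ∪ {p} := by
  ext a
  constructor
  · rintro ⟨i, rfl⟩
    refine Fin.lastCases ?_ (fun j => ?_) i
    · right
      simp
    · left
      exact ⟨j, by simp⟩
  · rintro (⟨j, rfl⟩ | h)
    · exact ⟨Fin.castSucc j, by simp⟩
    · exact ⟨Fin.last m, by simp [Set.mem_singleton_iff.1 h]⟩

end ODD

open ODD in
/-- **ODD** -/
theorem ODD_thm (hDER : Stmt_DER) (hTRD : Stmt_TRD) (hISO : Stmt_ISO) (hSQ : Stmt_SQ)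
    (hDET : Stmt_DET) (hKER : Stmt_KER) (hGAM : Stmt_GAM) (hCONP : Stmt_CONP)
    (hCONK : Stmt_CONK) (hEQV : Stmt_EQV) (hA : Stmt_FLDA) (hB : Stmt_FLDB) (hUP : Stmt_UP) :
    Stmt_ODD := by
  rintro m hm hev ⟨y, hy⟩
  have hodd : Odd (Fintype.card (Fin (m + 1))) := by
    rw [Fintype.card_fin]
    exact hev.add_one
  obtain ⟨c, hc⟩ := hKER (E (Fin (m + 1))) (Fin (m + 1)) x hodd (hDET (Fin (m + 1)))
  have hinj := x_inj (Fin (m + 1))
  have hsq : ∑ i, c i ^ 2 = 1 := by
    rw [← hSQ _ _ x c hinj hc.ker, hc.sum, one_pow]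
  obtain ⟨D, hD⟩ := hDER (Fin (m + 1)) (fun i => - c i ^ 2)
  have hg := hGAM _ _ x c hinj hc D hD
  obtain ⟨h1, h2, h3⟩ := hCONP _ _ x c hinj hc hsq D hD hg
  have h4 := hCONK _ _ x c hinj D hD hg
  have hM : ∀ f ∈ MM c, D f = 0 := by
    apply kill
    rintro f ((⟨k, rfl⟩ | ⟨k, rfl⟩) | h)
    · exact h3 k
    · exact h2 k
    · rw [Set.mem_singleton_iff.1 h]
      exact h4
  have ht : Transcendental (MM c) (∑ i, x i : E (Fin (m + 1))) :=
    hTRD _ (MM c) D _ hM (by rw [h1]; exact neg_ne_zero.2 one_ne_zero)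
  have hp : Transcendental (MM c) (x (Fin.last m) : E (Fin (m + 1))) :=
    hTRD _ (MM c) D _ hM (by
      rw [hD]
      exact neg_ne_zero.2 (pow_ne_zero 2 ((hEQV _ c hc).2 _)))
  obtain ⟨ψ, hψ⟩ := hUP m hm
  have hfield : MM c ⊔ adjoin ℂ {x (Fin.last m)} =
      invField (alternatingGroup (Fin (m + 1))) ⊔ adjoin ℂ {x (Fin.last m)} := by
    rw [← hA (m + 1) (by omega) c hc]
    apply le_antisymm
    · exact sup_le_sup_right le_sup_left _
    · refine sup_le (sup_le le_sup_left ?_) le_sup_right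
      rw [adjoin_simple_le_iff]
      exact hB m (by omega) c hc
  have hu : adjoin ℂ (Set.range (Fin.snoc (α := fun _ => E (Fin (m + 1))) (fun i => ψ (y i))
      (x (Fin.last m)) : Fin (m + 1) → E (Fin (m + 1)))) =
      MM c ⊔ adjoin ℂ {x (Fin.last m)} := by
    rw [hfield, ← hψ, ← hy, adjoin_map, range_snoc, adjoin_union, ← Set.range_comp]
    rfl
  obtain ⟨w, hw⟩ := hISO _ _ (MM c) _ _ _ hp ht hu
  exact ⟨w, by rw [hw, hA (m + 1) (by omega) c hc]⟩

end Pool.Agent.NOE
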