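import Mathlib

/-!
# Sextics with zero trace: the polynomials `X, Z, U, V`, the discriminant and their relations
-/

namespace Pool.Agent.NOE

section polys

variable {R : Type*} [CommRing R]

/-- weight 15 -/
def X6 (e a b c d : R) : R :=
    32*e^5*c - 16*e^4*a*b + 4*e^3*a^3 - 48*e^3*a*d - 256*e^3*b*c + 240*e^2*a^2*c + 128*e^2*a*b^2
    + 384*e^2*c*d - 144*e*a^3*b + 144*e*a*b*d - 1140*e*a*c^2 + 512*e*b^2*c + 27*a^5 - 216*a^3*d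
    + 576*a^2*b*c - 256*a*b^3 + 432*a*d^2 - 1440*b*c*d + 1000*c^3

/-- weight 16 -/
def Z6 (e a b c d : R) : R :=
    64*e^5*d + 8*e^4*a*c - 16*e^4*b^2 + 4*e^3*a^2*b - 544*e^3*b*d + 28*e^3*c^2 + 432*e^2*a^2*d -
    48*e^2*a*b*c + 128*e^2*b^3 + 432*e^2*d^2 + 54*e*a^3*c - 144*e*a^2*b^2 - 2376*e*a*c*d +
    1152*e*b^2*d - 240*e*b*c^2 + 27*a^4*b + 324*a^2*b*d - 135*a^2*c^2 + 576*a*b^2*c - 256*b^4 -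
    1728*b*d^2 + 2700*c^2*d

/-- weight 17 -/
def U6 (e a b c d : R) : R :=
    32*e^4*a*d - 16*e^4*b*c + 4*e^3*a^2*c + 80*e^3*c*d - 288*e^2*a*b*d + 24*e^2*a*c^2 +
    128*e^2*b^2*c + 216*e*a^3*d - 144*e*a^2*b*c - 864*e*a*d^2 - 432*e*b*c*d - 100*e*c^3 +
    27*a^4*c - 648*a^2*c*d + 864*a*b^2*d + 360*a*b*c^2 - 256*b^3*c + 2160*c*d^2

/-- weight 18 -/
def V6 (e a b c d : R) : R :=
    - 4*e^4*c^2 + 4*e^3*a^2*d + 64*e^3*d^2 + 24*e^2*a*c*d - 16*e^2*b^2*d + 36*e^2*b*c^2 -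
    36*e*a^2*b*d - 27*e*a^2*c^2 - 288*e*b*d^2 - 120*e*c^2*d + 27*a^4*d - 216*a^2*d^2 +
    216*a*b*c*d + 50*a*c^3 + 64*b^3*d - 80*b^2*c^2 + 432*d^3

/-- the discriminant of `T^6 + e T^4 + a T^3 + b T^2 + c T + d` -/
def D6 (e a b c d : R) : R :=
    - 1024*e^6*d^3 + 768*e^5*a*c*d^2 + 512*e^5*b^2*d^2 - 576*e^5*b*c^2*d + 108*e^5*c^4 -
    576*e^4*a^2*b*d^2 + 24*e^4*a^2*c^2*d + 320*e^4*a*b^2*c*d - 72*e^4*a*b*c^3 - 64*e^4*b^4*d +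
    16*e^4*b^3*c^2 + 9216*e^4*b*d^3 - 192*e^4*c^2*d^2 + 108*e^3*a^4*d^2 - 72*e^3*a^3*b*c*d +
    16*e^3*a^3*c^3 + 16*e^3*a^2*b^3*d - 4*e^3*a^2*b^2*c^2 - 8640*e^3*a^2*d^3 -
    5760*e^3*a*b*c*d^2 - 120*e^3*a*c^3*d - 4352*e^3*b^3*d^2 + 4816*e^3*b^2*c^2*d - 900*e^3*b*c^4
    - 13824*e^3*d^4 + 5832*e^2*a^3*c*d^2 + 8208*e^2*a^2*b^2*d^2 - 4536*e^2*a^2*b*c^2*d +
    825*e^2*a^2*c^4 - 2496*e^2*a*b^3*c*d + 560*e^2*a*b^2*c^3 + 46656*e^2*a*c*d^3 + 512*e^2*b^5*d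
    - 128*e^2*b^4*c^2 - 17280*e^2*b^2*d^3 - 6480*e^2*b*c^2*d^2 + 1500*e^2*c^4*d -
    4860*e*a^4*b*d^2 + 162*e*a^4*c^2*d + 2808*e*a^3*b^2*c*d - 630*e*a^3*b*c^3 - 576*e*a^2*b^4*d
    + 144*e*a^2*b^3*c^2 + 3888*e*a^2*b*d^3 - 27540*e*a^2*c^2*d^2 - 3456*e*a*b^2*c*d^2 +
    19800*e*a*b*c^3*d - 3750*e*a*c^5 + 9216*e*b^4*d^2 - 10560*e*b^3*c^2*d + 2000*e*b^2*c^4 +
    62208*e*b*d^4 - 32400*e*c^2*d^3 + 729*a^6*d^2 - 486*a^5*b*c*d + 108*a^5*c^3 + 108*a^4*b^3*d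
    - 27*a^4*b^2*c^2 - 8748*a^4*d^3 + 21384*a^3*b*c*d^2 - 1350*a^3*c^3*d - 8640*a^2*b^3*d^2 -
    9720*a^2*b^2*c^2*d + 2250*a^2*b*c^4 + 34992*a^2*d^4 + 6912*a*b^4*c*d - 1600*a*b^3*c^3 -
    77760*a*b*c*d^3 + 27000*a*c^3*d^2 - 1024*b^6*d + 256*b^5*c^2 - 13824*b^3*d^3 +
    43200*b^2*c^2*d^2 - 22500*b*c^4*d + 3125*c^6 - 46656*d^5

theorem rel21 (e a b c d : R) :
    -135*d*X6 e a b c d + 50*c*Z6 e a b c d - 50*b*U6 e a b c d + 135*a*V6 e a b c d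
      + 7*e*b*X6 e a b c d - 7*e*a*Z6 e a b c d + 14*e^2*U6 e a b c d = 0 := by
  unfold X6 Z6 U6 V6
  ring

theorem rel22 (e a b c d : R) :
    -8*d*Z6 e a b c d + 10*c*U6 e a b c d - 32*b*V6 e a b c d - 2*a*b*X6 e a b c d
      + 2*a^2*Z6 e a b c d + e*c*X6 e a b c d - 5*e*a*U6 e a b c d + 8*e^2*V6 e a b c d = 0 := by
  unfold X6 Z6 U6 V6
  ring

theorem rel34 (e a b c d : R) :
    -5*U6 e a b c d^2 + 20*Z6 e a b c d*V6 e a b c d - 320*b*D6 e a b c d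
      + b*X6 e a b c d^2 - a*X6 e a b c d*Z6 e a b c d + 2*e*X6 e a b c d*U6 e a b c d
      + 80*e^2*D6 e a b c d = 0 := by
  unfold X6 Z6 U6 V6 D6
  ring

theorem rel35 (e a b c d : R) :
    -80*U6 e a b c d*V6 e a b c d - 1600*c*D6 e a b c d + 5*c*X6 e a b c d^2
      - 8*b*X6 e a b c d*Z6 e a b c d + 8*a*Z6 e a b c d^2 - 5*a*X6 e a b c d*U6 e a b c d
      - 16*e*Z6 e a b c d*U6 e a b c d + 40*e*X6 e a b c d*V6 e a b c d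
      + 800*e*a*D6 e a b c d = 0 := by
  unfold X6 Z6 U6 V6 D6
  ring

end polys

end Pool.Agent.NOE
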