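import Pool.Agent.NOE.Coef
import Pool.Agent.NOE.Alg6
import Pool.Agent.NOE.Disc6

/-!
# The field of invariants of the alternating group of degree 6
-/

open MvPolynomial IntermediateField
open Pool.Agent.Lib_helper20.Noether Pool.Agent.Lib_helper20.Noether.ARTIN

namespace Pool.Agent.NOE

section general

/-- the product of the `T - x i` with zero trace -/
theorem poly6 {K : Type*} [Field K] (x : Fin 6 → K)
    (h0 : x 0 + x 1 + x 2 + x 3 + x 4 + x 5 = 0) :
    ∏ i, (Polynomial.X - Polynomial.C (x i)) =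
      Polynomial.X ^ 6 + Polynomial.C (e6 x) * Polynomial.X ^ 4 +
        Polynomial.C (a6 x) * Polynomial.X ^ 3 + Polynomial.C (b6 x) * Polynomial.X ^ 2 +
        Polynomial.C (c6 x) * Polynomial.X + Polynomial.C (d6 x) := by
  have h1 : Polynomial.C (x 0) + Polynomial.C (x 1) + Polynomial.C (x 2) + Polynomial.C (x 3) +
      Polynomial.C (x 4) + Polynomial.C (x 5) = 0 := by
    rw [← map_add, ← map_add, ← map_add, ← map_add, ← map_add, h0, map_zero]
  rw [Fin.prod_univ_six]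
  unfold e6 a6 b6 c6 d6
  simp only [map_add, map_mul, map_neg]
  linear_combination (-Polynomial.X ^ 5) * h1

theorem coeffs6 {K : Type*} [Field K] (x : Fin 6 → K)
    (h0 : x 0 + x 1 + x 2 + x 3 + x 4 + x 5 = 0) :
    e6 x = (∏ i, (Polynomial.X - Polynomial.C (x i))).coeff 4 ∧
    a6 x = (∏ i, (Polynomial.X - Polynomial.C (x i))).coeff 3 ∧
    b6 x = (∏ i, (Polynomial.X - Polynomial.C (x i))).coeff 2 ∧
    c6 x = (∏ i, (Polynomial.X - Polynomial.C (x i))).coeff 1 ∧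
    d6 x = (∏ i, (Polynomial.X - Polynomial.C (x i))).coeff 0 := by
  rw [poly6 x h0]
  refine ⟨?_, ?_, ?_, ?_, ?_⟩ <;>
    simp [Polynomial.coeff_X_pow, Polynomial.coeff_X]

theorem coeffs6_mem {K : Type*} [Field K] (x : Fin 6 → K)
    (h0 : x 0 + x 1 + x 2 + x 3 + x 4 + x 5 = 0) (M : Subfield K)
    (he : e6 x ∈ M) (ha : a6 x ∈ M) (hb : b6 x ∈ M) (hc : c6 x ∈ M) (hd : d6 x ∈ M) (k : ℕ) :
    (∏ i, (Polynomial.X - Polynomial.C (x i))).coeff k ∈ M := by
  rw [poly6 x h0]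
  simp only [Polynomial.coeff_add, Polynomial.coeff_C_mul, Polynomial.coeff_X_pow,
    Polynomial.coeff_X, Polynomial.coeff_C]
  have h1 := one_mem M
  have h2 := zero_mem M
  refine add_mem (add_mem (add_mem (add_mem (add_mem ?_ ?_) ?_) ?_) ?_) ?_
  · split_ifs <;> assumption
  · refine mul_mem he ?_
    split_ifs <;> assumption
  · refine mul_mem ha ?_
    split_ifs <;> assumption
  · refine mul_mem hb ?_
    split_ifs <;> assumption
  · refine mul_mem hc ?_
    split_ifs <;> assumption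
  · split_ifs <;> assumption

theorem coeffs6_perm {K : Type*} [Field K] (x : Fin 6 → K)
    (h0 : x 0 + x 1 + x 2 + x 3 + x 4 + x 5 = 0) (σ : Equiv.Perm (Fin 6)) :
    e6 (x ∘ σ) = e6 x ∧ a6 (x ∘ σ) = a6 x ∧ b6 (x ∘ σ) = b6 x ∧ c6 (x ∘ σ) = c6 x ∧
      d6 (x ∘ σ) = d6 x := by
  have h1 : (x ∘ σ) 0 + (x ∘ σ) 1 + (x ∘ σ) 2 + (x ∘ σ) 3 + (x ∘ σ) 4 + (x ∘ σ) 5 = 0 := by
    have h2 : ∑ i, (x ∘ σ) i = ∑ i, x i := Equiv.sum_comp σ x
    rw [Fin.sum_univ_six, Fin.sum_univ_six, h0] at h2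
    exact h2
  have h3 : ∏ i, (Polynomial.X - Polynomial.C ((x ∘ σ) i)) =
      ∏ i, (Polynomial.X - Polynomial.C (x i)) :=
    Equiv.prod_comp σ fun i => (Polynomial.X - Polynomial.C (x i))
  obtain ⟨k1, k2, k3, k4, k5⟩ := coeffs6 (x ∘ σ) h1
  obtain ⟨l1, l2, l3, l4, l5⟩ := coeffs6 x h0
  rw [h3] at k1 k2 k3 k4 k5
  exact ⟨k1.trans l1.symm, k2.trans l2.symm, k3.trans l3.symm, k4.trans l4.symm,
    k5.trans l5.symm⟩

section maps

variable {R S : Type*} [CommRing R] [CommRing S] (φ : R →+* S)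

theorem map_e6 (x : Fin 6 → R) : φ (e6 x) = e6 (fun i => φ (x i)) := by simp [e6]
theorem map_a6 (x : Fin 6 → R) : φ (a6 x) = a6 (fun i => φ (x i)) := by simp [a6]
theorem map_b6 (x : Fin 6 → R) : φ (b6 x) = b6 (fun i => φ (x i)) := by simp [b6]
theorem map_c6 (x : Fin 6 → R) : φ (c6 x) = c6 (fun i => φ (x i)) := by simp [c6]
theorem map_d6 (x : Fin 6 → R) : φ (d6 x) = d6 (fun i => φ (x i)) := by simp [d6]

theorem map_X6 (e a b c d : R) : φ (X6 e a b c d) = X6 (φ e) (φ a) (φ b) (φ c) (φ d) := by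
  simp only [X6, map_add, map_sub, map_mul, map_pow, map_ofNat]
theorem map_Z6 (e a b c d : R) : φ (Z6 e a b c d) = Z6 (φ e) (φ a) (φ b) (φ c) (φ d) := by
  simp only [Z6, map_add, map_sub, map_mul, map_pow, map_ofNat]
theorem map_U6 (e a b c d : R) : φ (U6 e a b c d) = U6 (φ e) (φ a) (φ b) (φ c) (φ d) := by
  simp only [U6, map_add, map_sub, map_mul, map_pow, map_ofNat]

end maps

end general

section point

/-- A polynomial in six variables given by a polynomial expression in the coefficients and the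
Vandermonde determinant is nonzero if it is nonzero at one point. -/
theorem nonzero_of_eval {n : ℕ} (f : MvPolynomial (Fin n) ℂ) (v : Fin n → ℂ)
    (h : MvPolynomial.eval v f ≠ 0) : f ≠ 0 := by
  rintro rfl
  exact h (map_zero _)

/-- variables with trace zero -/
noncomputable def xp (i : Fin 6) : MvPolynomial (Fin 6) ℂ :=
  X i - C (1 / 6 : ℂ) * (X 0 + X 1 + X 2 + X 3 + X 4 + X 5)

theorem xp_sum : xp 0 + xp 1 + xp 2 + xp 3 + xp 4 + xp 5 = 0 := by
  have h : (C (1 / 6 : ℂ) : MvPolynomial (Fin 6) ℂ) * 6 = 1 := by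
    have : (6 : MvPolynomial (Fin 6) ℂ) = C (6 : ℂ) := (map_ofNat C 6).symm
    rw [this, ← C_mul]
    norm_num
  unfold xp
  linear_combination (-(X 0 + X 1 + X 2 + X 3 + X 4 + X 5 : MvPolynomial (Fin 6) ℂ)) * h

theorem xp_inj : Function.Injective xp := by
  intro i j h
  unfold xp at h
  have h2 : (X i : MvPolynomial (Fin 6) ℂ) = X j := by linear_combination h
  exact X_injective h2

theorem rename_xp (σ : Equiv.Perm (Fin 6)) (i : Fin 6) : rename σ (xp i) = xp (σ i) := by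
  have h : (X (σ 0) + X (σ 1) + X (σ 2) + X (σ 3) + X (σ 4) + X (σ 5) : MvPolynomial (Fin 6) ℂ)
      = X 0 + X 1 + X 2 + X 3 + X 4 + X 5 := by
    have h2 : ∑ i, (X (σ i) : MvPolynomial (Fin 6) ℂ) = ∑ i, X i :=
      Equiv.sum_comp σ fun i => (X i : MvPolynomial (Fin 6) ℂ)
    rw [Fin.sum_univ_six, Fin.sum_univ_six] at h2
    exact h2
  unfold xp
  simp only [map_sub, map_mul, map_add, rename_X, rename_C]
  rw [h]

/-- the point `(0, 0, 1, 2, 3, -6)` -/
noncomputable def pt : Fin 6 → ℂ := ![0, 0, 1, 2, 3, -6]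

theorem eval_xp (i : Fin 6) : MvPolynomial.eval pt (xp i) = pt i := by
  unfold xp
  simp only [map_sub, map_mul, map_add, eval_X, eval_C]
  have : pt 0 + pt 1 + pt 2 + pt 3 + pt 4 + pt 5 = 0 := by
    simp [pt]
    norm_num
  rw [this, mul_zero, sub_zero]

theorem eval_coeffs : MvPolynomial.eval pt (e6 xp) = -25 ∧ MvPolynomial.eval pt (a6 xp) = 60 ∧
    MvPolynomial.eval pt (b6 xp) = -36 ∧ MvPolynomial.eval pt (c6 xp) = 0 ∧
    MvPolynomial.eval pt (d6 xp) = 0 := by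
  rw [map_e6, map_a6, map_b6, map_c6, map_d6]
  simp only [eval_xp]
  refine ⟨?_, ?_, ?_, ?_, ?_⟩
  · simp [e6, pt]
    norm_num
  · simp [a6, pt]
    norm_num
  · simp [b6, pt]
    norm_num
  · simp [c6, pt]
  · simp [d6, pt]

theorem eval_vdm : MvPolynomial.eval pt (Matrix.vandermonde xp).det = 0 := by
  rw [RingHom.map_det]
  apply Matrix.det_zero_of_row_eq (i := 0) (j := 1) (by decide)
  funext j
  have h0 := eval_xp 0
  have h1 := eval_xp 1
  simp only [RingHom.mapMatrix_apply, Matrix.map_apply, Matrix.vandermonde_apply, map_pow, h0, h1]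
  simp [pt]

end point

end Pool.Agent.NOE
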