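import Pool.Agent.NOE.Stmts

/-!
# SQ: for a vector of the kernel the square of the sum is the sum of the squares
-/

set_option autoImplicit false

namespace Pool.Agent.NOE

/-- For a vector of the kernel the square of the sum is the sum of the squares. -/
theorem SQ_thm : Stmt_SQ := by
  intro K ι _ _ _ _ x c hx hker
  have h1 : ∑ i, ∑ j, c i * x i * ((x i - x j)⁻¹ * c j) = 0 := by
    refine Finset.sum_eq_zero fun i _ => ?_
    rw [← Finset.mul_sum, hker i, mul_zero]
  have h2 : ∑ i, ∑ j, c i * x j * ((x i - x j)⁻¹ * c j) = 0 := by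
    rw [Finset.sum_comm]
    refine Finset.sum_eq_zero fun j _ => ?_
    have e : ∀ i, c i * x j * ((x i - x j)⁻¹ * c j) =
        -(c j * x j) * ((x j - x i)⁻¹ * c i) := by
      intro i
      rw [← neg_sub (x i) (x j), inv_neg]
      ring
    rw [Finset.sum_congr rfl fun i _ => e i, ← Finset.mul_sum, hker j, mul_zero]
  have h3 : ∀ i, ∑ j, (c i * x i * ((x i - x j)⁻¹ * c j) - c i * x j * ((x i - x j)⁻¹ * c j)) =
      c i * ∑ j, c j - c i ^ 2 := by
    intro i
    have e : ∀ j, c i * x i * ((x i - x j)⁻¹ * c j) - c i * x j * ((x i - x j)⁻¹ * c j) =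
        c i * c j - if j = i then c i ^ 2 else 0 := by
      intro j
      by_cases h : j = i
      · rw [if_pos h, h, sub_self]
        ring
      · rw [if_neg h, sub_zero]
        have h4 : x i - x j ≠ 0 := sub_ne_zero.mpr fun h5 => h (hx h5).symm
        field_simp
    rw [Finset.sum_congr rfl fun j _ => e j, Finset.sum_sub_distrib, ← Finset.mul_sum,
      Finset.sum_ite_eq' Finset.univ i, if_pos (Finset.mem_univ i)]
  have h4 : ∑ i, (c i * ∑ j, c j - c i ^ 2) = 0 := by
    rw [← Finset.sum_congr rfl fun i _ => h3 i]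
    simp only [Finset.sum_sub_distrib]
    rw [h1, h2, sub_zero]
  rw [Finset.sum_sub_distrib, ← Finset.sum_mul] at h4
  linear_combination h4

end Pool.Agent.NOE
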