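import Pool.Agent.NOE.Stmts

/-!
# Symmetric rational functions
-/

open MvPolynomial IntermediateField
open Pool.Agent.Lib_helper20.Noether Pool.Agent.Lib_helper20.Noether.ARTIN

namespace Pool.Agent.NOE

/-- The symmetric functions are contained in every field containing the elementary ones. -/
theorem SYM_thm : Stmt_SYM := by
  intro n M hM f hf
  have h : ∀ k : Fin n,
      algebraMap (MvPolynomial (Fin n) ℂ) (E (Fin n)) (esymm (Fin n) ℂ (k + 1)) ∈ M :=
    esymm_of_coeff M hM
  set A := algebraMap (MvPolynomial (Fin n) ℂ) (E (Fin n)) with hA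
  have hinj : Function.Injective A := IsFractionRing.injective _ _
  obtain ⟨p, q, hq, rfl⟩ := IsFractionRing.div_surjective (A := MvPolynomial (Fin n) ℂ) f
  have hq0 : q ≠ 0 := nonZeroDivisors.ne_zero hq
  set Q : MvPolynomial (Fin n) ℂ := ∏ τ : Equiv.Perm (Fin n), rename τ q with hQ
  have hren0 : ∀ τ : Equiv.Perm (Fin n), rename τ q ≠ 0 := fun τ hτ =>
    hq0 ((rename_injective τ τ.injective) (by rw [hτ, map_zero]))
  have hQ0 : Q ≠ 0 := Finset.prod_ne_zero_iff.2 fun τ _ => hren0 τ
  have hQs : Q.IsSymmetric := fun σ => rename_prod_perm n q σ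
  set P : MvPolynomial (Fin n) ℂ :=
    p * ∏ τ ∈ (Finset.univ.erase (1 : Equiv.Perm (Fin n))), rename τ q with hP
  have hQ1 : Q = q * ∏ τ ∈ (Finset.univ.erase (1 : Equiv.Perm (Fin n))), rename τ q := by
    rw [hQ, ← Finset.mul_prod_erase Finset.univ _ (Finset.mem_univ (1 : Equiv.Perm (Fin n)))]
    congr 1
    simp
  have hfP : A p / A q = A P / A Q := by
    rw [div_eq_div_iff (fun h0 => hq0 (hinj (by rw [h0, map_zero])))
      (fun h0 => hQ0 (hinj (by rw [h0, map_zero]))), ← map_mul, ← map_mul, hQ1, hP]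
    congr 1
    ring
  clear_value P Q
  have hPs : P.IsSymmetric := by
    intro σ
    apply hinj
    have h1 := hf σ (Subgroup.mem_top σ)
    rw [hfP, map_div₀, perm_algebraMap, perm_algebraMap, hQs σ] at h1
    exact (div_left_inj' (fun h0 => hQ0 (hinj (by rw [h0, map_zero])))).1 h1
  rw [hfP]
  exact div_mem (symm_mem M h _ hPs) (symm_mem M h _ hQs)

end Pool.Agent.NOE
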