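import Pool.Agent.NOE.Prep6

/-!
# The field of invariants of the alternating group of degree 6 is rational
-/

open MvPolynomial IntermediateField
open Pool.Agent.Lib_helper20.Noether Pool.Agent.Lib_helper20.Noether.ARTIN

namespace Pool.Agent.NOE

namespace Six

/-- The embedding of the polynomial ring. -/
noncomputable abbrev A : MvPolynomial (Fin 6) ℂ →+* E (Fin 6) :=
  algebraMap (MvPolynomial (Fin 6) ℂ) (E (Fin 6))

theorem A_inj : Function.Injective A := IsFractionRing.injective _ _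

theorem A_ne {f : MvPolynomial (Fin 6) ℂ} (h : f ≠ 0) : A f ≠ 0 := fun h0 =>
  h (A_inj (by rw [h0, map_zero]))

/-- variables with trace zero, in the field -/
noncomputable def xx (i : Fin 6) : E (Fin 6) := A (xp i)

theorem xx_sum : xx 0 + xx 1 + xx 2 + xx 3 + xx 4 + xx 5 = 0 := by
  unfold xx
  rw [← map_add, ← map_add, ← map_add, ← map_add, ← map_add, xp_sum, map_zero]

theorem xx_inj : Function.Injective xx := A_inj.comp xp_inj

theorem perm_xx (σ : Equiv.Perm (Fin 6)) : (fun i => perm σ (xx i)) = xx ∘ σ := by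
  funext i
  unfold xx
  rw [perm_algebraMap, rename_xp]
  rfl

noncomputable def ee : E (Fin 6) := e6 xx
noncomputable def aa : E (Fin 6) := a6 xx
noncomputable def bb : E (Fin 6) := b6 xx
noncomputable def cc : E (Fin 6) := c6 xx
noncomputable def dd : E (Fin 6) := d6 xx
noncomputable def yy : E (Fin 6) := (Matrix.vandermonde xx).det
noncomputable def XX : E (Fin 6) := X6 ee aa bb cc dd
noncomputable def ZZ : E (Fin 6) := Z6 ee aa bb cc dd
noncomputable def UU : E (Fin 6) := U6 ee aa bb cc dd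
noncomputable def VV : E (Fin 6) := V6 ee aa bb cc dd

theorem ee_eq : ee = A (e6 xp) := (map_e6 A xp).symm
theorem aa_eq : aa = A (a6 xp) := (map_a6 A xp).symm
theorem bb_eq : bb = A (b6 xp) := (map_b6 A xp).symm
theorem cc_eq : cc = A (c6 xp) := (map_c6 A xp).symm
theorem dd_eq : dd = A (d6 xp) := (map_d6 A xp).symm
theorem yy_eq : yy = A (Matrix.vandermonde xp).det := by
  unfold yy
  rw [RingHom.map_det]
  congr 1
  ext i j
  simp [xx, Matrix.vandermonde_apply]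

theorem XX_eq : XX = A (X6 (e6 xp) (a6 xp) (b6 xp) (c6 xp) (d6 xp)) := by
  rw [map_X6, ← ee_eq, ← aa_eq, ← bb_eq, ← cc_eq, ← dd_eq]; rfl
theorem ZZ_eq : ZZ = A (Z6 (e6 xp) (a6 xp) (b6 xp) (c6 xp) (d6 xp)) := by
  rw [map_Z6, ← ee_eq, ← aa_eq, ← bb_eq, ← cc_eq, ← dd_eq]; rfl
theorem UU_eq : UU = A (U6 (e6 xp) (a6 xp) (b6 xp) (c6 xp) (d6 xp)) := by
  rw [map_U6, ← ee_eq, ← aa_eq, ← bb_eq, ← cc_eq, ← dd_eq]; rfl

/-- values at the point -/
theorem ev_X : MvPolynomial.eval pt (X6 (e6 xp) (a6 xp) (b6 xp) (c6 xp) (d6 xp)) = -60963840 := by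
  obtain ⟨h1, h2, h3, h4, h5⟩ := eval_coeffs
  rw [map_X6, h1, h2, h3, h4, h5]
  unfold X6
  norm_num

theorem ev_Z : MvPolynomial.eval pt (Z6 (e6 xp) (a6 xp) (b6 xp) (c6 xp) (d6 xp)) = 36578304 := by
  obtain ⟨h1, h2, h3, h4, h5⟩ := eval_coeffs
  rw [map_Z6, h1, h2, h3, h4, h5]
  unfold Z6
  norm_num

theorem ev_U : MvPolynomial.eval pt (U6 (e6 xp) (a6 xp) (b6 xp) (c6 xp) (d6 xp)) = 0 := by
  obtain ⟨h1, h2, h3, h4, h5⟩ := eval_coeffs
  rw [map_U6, h1, h2, h3, h4, h5]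
  unfold U6
  norm_num

theorem XX_ne : XX ≠ 0 := by
  rw [XX_eq]
  refine A_ne (nonzero_of_eval _ pt ?_)
  rw [ev_X]
  norm_num

theorem ZZ_ne : ZZ ≠ 0 := by
  rw [ZZ_eq]
  refine A_ne (nonzero_of_eval _ pt ?_)
  rw [ev_Z]
  norm_num

theorem pN_ne : 320 * yy ^ 2 - XX ^ 2 ≠ 0 := by
  have h : 320 * yy ^ 2 - XX ^ 2 = A (320 * (Matrix.vandermonde xp).det ^ 2 -
      X6 (e6 xp) (a6 xp) (b6 xp) (c6 xp) (d6 xp) ^ 2) := by
    rw [yy_eq, XX_eq]
    simp only [map_sub, map_mul, map_pow, map_ofNat]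
  rw [h]
  refine A_ne (nonzero_of_eval _ pt ?_)
  simp only [map_sub, map_mul, map_pow, map_ofNat, ev_X, eval_vdm]
  norm_num

theorem PN_ne : 320 * yy ^ 2 + 80 * XX ^ 2 ≠ 0 := by
  have h : 320 * yy ^ 2 + 80 * XX ^ 2 = A (320 * (Matrix.vandermonde xp).det ^ 2 +
      80 * X6 (e6 xp) (a6 xp) (b6 xp) (c6 xp) (d6 xp) ^ 2) := by
    rw [yy_eq, XX_eq]
    simp only [map_add, map_mul, map_pow, map_ofNat]
  rw [h]
  refine A_ne (nonzero_of_eval _ pt ?_)
  simp only [map_add, map_mul, map_pow, map_ofNat, ev_X, eval_vdm]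
  norm_num

/-- numerator of `r2` -/
noncomputable def R2 : E (Fin 6) := ZZ ^ 2 + 3 * ee * (4 * yy ^ 2 + XX ^ 2)

theorem R2_ne : R2 ≠ 0 := by
  have h : R2 = A (Z6 (e6 xp) (a6 xp) (b6 xp) (c6 xp) (d6 xp) ^ 2 +
      3 * e6 xp * (4 * (Matrix.vandermonde xp).det ^ 2 +
      X6 (e6 xp) (a6 xp) (b6 xp) (c6 xp) (d6 xp) ^ 2)) := by
    unfold R2
    rw [yy_eq, XX_eq, ZZ_eq, ee_eq]
    simp only [map_add, map_mul, map_pow, map_ofNat]
  rw [h]
  refine A_ne (nonzero_of_eval _ pt ?_)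
  simp only [map_add, map_mul, map_pow, map_ofNat, ev_X, ev_Z, eval_vdm, eval_coeffs.1]
  norm_num

/-- the numerator of the binary cubic -/
def CN {R : Type*} [CommRing R] (y X Z U e : R) : R :=
  (320 * y ^ 2 + 80 * X ^ 2) * (27 * X ^ 2 - 5 * (320 * y ^ 2 - X ^ 2)) *
      (3 * X * (U + e * X)) ^ 3 +
    24 * (23 * (320 * y ^ 2 - X ^ 2) - 297 * X ^ 2) * X ^ 2 * (3 * X * (U + e * X)) ^ 2 *
      (Z ^ 2 + 3 * e * (4 * y ^ 2 + X ^ 2)) -
    192 * ((320 * y ^ 2 - X ^ 2) - 39 * X ^ 2) * X ^ 2 * (3 * X * (U + e * X)) *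
      (Z ^ 2 + 3 * e * (4 * y ^ 2 + X ^ 2)) ^ 2 -
    2560 * X ^ 4 * (Z ^ 2 + 3 * e * (4 * y ^ 2 + X ^ 2)) ^ 3

theorem CN_ne : CN yy XX ZZ UU ee ≠ 0 := by
  have h : CN yy XX ZZ UU ee = A (CN (Matrix.vandermonde xp).det
      (X6 (e6 xp) (a6 xp) (b6 xp) (c6 xp) (d6 xp)) (Z6 (e6 xp) (a6 xp) (b6 xp) (c6 xp) (d6 xp))
      (U6 (e6 xp) (a6 xp) (b6 xp) (c6 xp) (d6 xp)) (e6 xp)) := by
    unfold CN
    rw [yy_eq, XX_eq, ZZ_eq, UU_eq, ee_eq]
    simp only [map_add, map_sub, map_mul, map_pow, map_ofNat]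
  rw [h]
  refine A_ne (nonzero_of_eval _ pt ?_)
  unfold CN
  simp only [map_add, map_sub, map_mul, map_pow, map_ofNat, ev_X, ev_Z, ev_U, eval_vdm,
    eval_coeffs.1]
  norm_num

theorem C0_eq {K : Type*} [Field K] [CharZero K] (y X Z U e : K) (hX : X ≠ 0)
    (hR : Z ^ 2 + 3 * e * (4 * y ^ 2 + X ^ 2) ≠ 0) :
    C0 (320 * (y / X) ^ 2 - 1) ((3 * (U / X) + 3 * e) /
      ((Z / X) ^ 2 + 3 / 80 * ((320 * (y / X) ^ 2 - 1) + 81) * e)) =
      CN y X Z U e / (X ^ 4 * (Z ^ 2 + 3 * e * (4 * y ^ 2 + X ^ 2)) ^ 3) := by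
  have h1 : (Z / X) ^ 2 + 3 / 80 * ((320 * (y / X) ^ 2 - 1) + 81) * e =
      (Z ^ 2 + 3 * e * (4 * y ^ 2 + X ^ 2)) / X ^ 2 := by
    field_simp
    ring
  have h2 : (3 * (U / X) + 3 * e) / ((Z / X) ^ 2 + 3 / 80 * ((320 * (y / X) ^ 2 - 1) + 81) * e) =
      (3 * X * (U + e * X)) / (Z ^ 2 + 3 * e * (4 * y ^ 2 + X ^ 2)) := by
    rw [h1]
    field_simp
  rw [h2]
  unfold C0 CN
  generalize hS : Z ^ 2 + 3 * e * (4 * y ^ 2 + X ^ 2) = S at hR ⊢
  field_simp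
  ring

/-- The invariants. -/
theorem inv_coeffs (σ : Equiv.Perm (Fin 6)) :
    perm σ ee = ee ∧ perm σ aa = aa ∧ perm σ bb = bb ∧ perm σ cc = cc ∧ perm σ dd = dd := by
  obtain ⟨h1, h2, h3, h4, h5⟩ := coeffs6_perm xx xx_sum σ
  have hm := perm_xx σ
  refine ⟨?_, ?_, ?_, ?_, ?_⟩
  · have := map_e6 (perm σ : E (Fin 6) ≃ₐ[ℂ] E (Fin 6)).toRingEquiv.toRingHom xx
    refine Eq.trans this ?_
    exact (congrArg e6 hm).trans h1
  · have := map_a6 (perm σ : E (Fin 6) ≃ₐ[ℂ] E (Fin 6)).toRingEquiv.toRingHom xx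
    refine Eq.trans this ?_
    exact (congrArg a6 hm).trans h2
  · have := map_b6 (perm σ : E (Fin 6) ≃ₐ[ℂ] E (Fin 6)).toRingEquiv.toRingHom xx
    refine Eq.trans this ?_
    exact (congrArg b6 hm).trans h3
  · have := map_c6 (perm σ : E (Fin 6) ≃ₐ[ℂ] E (Fin 6)).toRingEquiv.toRingHom xx
    refine Eq.trans this ?_
    exact (congrArg c6 hm).trans h4
  · have := map_d6 (perm σ : E (Fin 6) ≃ₐ[ℂ] E (Fin 6)).toRingEquiv.toRingHom xx
    refine Eq.trans this ?_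
    exact (congrArg d6 hm).trans h5

theorem perm_yy (σ : Equiv.Perm (Fin 6)) (h : Equiv.Perm.sign σ = 1) : perm σ yy = yy := by
  have h1 : perm σ yy = (Matrix.vandermonde (xx ∘ σ)).det := by
    have h2 := (perm σ : E (Fin 6) ≃ₐ[ℂ] E (Fin 6)).toRingEquiv.toRingHom.map_det
      (Matrix.vandermonde xx)
    refine Eq.trans h2 ?_
    congr 1
    ext i j
    have h3 := congrFun (perm_xx σ) i
    simp only [RingHom.mapMatrix_apply, Matrix.map_apply, Matrix.vandermonde_apply, map_pow]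
    exact congrArg (· ^ (j : ℕ)) h3
  rw [h1, vandermonde_perm, h]
  simp [yy]

/-- the field of invariants -/
noncomputable abbrev I : IntermediateField ℂ (E (Fin 6)) := invField (alternatingGroup (Fin 6))

theorem mem_I {f : E (Fin 6)} : f ∈ I ↔ ∀ σ ∈ alternatingGroup (Fin 6), perm σ f = f := Iff.rfl

theorem ee_mem : ee ∈ I := fun σ _ => (inv_coeffs σ).1
theorem aa_mem : aa ∈ I := fun σ _ => (inv_coeffs σ).2.1
theorem bb_mem : bb ∈ I := fun σ _ => (inv_coeffs σ).2.2.1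
theorem cc_mem : cc ∈ I := fun σ _ => (inv_coeffs σ).2.2.2.1
theorem dd_mem : dd ∈ I := fun σ _ => (inv_coeffs σ).2.2.2.2
theorem yy_mem : yy ∈ I := fun σ hσ => perm_yy σ hσ

/-- the sum of the variables -/
noncomputable def ss : E (Fin 6) := ∑ i, x i

theorem ss_mem : ss ∈ I := by
  intro σ _
  unfold ss
  rw [map_sum]
  simp_rw [perm_x]
  exact Equiv.sum_comp σ fun i => (x i : E (Fin 6))

noncomputable def ll : E (Fin 6) := yy / XX
noncomputable def zz : E (Fin 6) := ZZ / XX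
noncomputable def uu : E (Fin 6) := UU / XX
noncomputable def vv : E (Fin 6) := VV / XX
noncomputable def pp : E (Fin 6) := 320 * ll ^ 2 - 1
noncomputable def PP : E (Fin 6) := pp + 81
noncomputable def r1 : E (Fin 6) := 3 * uu + 3 * ee
noncomputable def r2 : E (Fin 6) := zz ^ 2 + 3 / 80 * PP * ee
noncomputable def WW : E (Fin 6) :=
  aa - 2 * vv + zz * (216 * uu - 64 * zz ^ 2 - 36 / 5 * (2 * pp - 3) * ee) / (54 * pp)
noncomputable def V0 : E (Fin 6) :=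
  vv - zz * (144 * (13 * pp - 27) * uu - 128 * (pp - 9) * zz ^ 2
    - 72 / 5 * (pp + 1) * (2 * pp + 27) * ee) / (216 * pp * PP)

theorem pp_ne : pp ≠ 0 := by
  have h : pp = (320 * yy ^ 2 - XX ^ 2) / XX ^ 2 := by
    unfold pp ll
    have := XX_ne
    field_simp
  rw [h]
  exact div_ne_zero pN_ne (pow_ne_zero 2 XX_ne)

theorem PP_ne : PP ≠ 0 := by
  have h : PP = (320 * yy ^ 2 + 80 * XX ^ 2) / XX ^ 2 := by
    unfold PP pp ll
    have := XX_ne
    field_simp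
    ring
  rw [h]
  exact div_ne_zero PN_ne (pow_ne_zero 2 XX_ne)

theorem r2_ne : r2 ≠ 0 := by
  have h : r2 = R2 / XX ^ 2 := by
    unfold r2 PP pp ll zz R2
    have := XX_ne
    field_simp
    ring
  rw [h]
  exact div_ne_zero R2_ne (pow_ne_zero 2 XX_ne)

theorem C0_ne : C0 pp (r1 / r2) ≠ 0 := by
  have h : C0 pp (r1 / r2) =
      CN yy XX ZZ UU ee / (XX ^ 4 * (ZZ ^ 2 + 3 * ee * (4 * yy ^ 2 + XX ^ 2)) ^ 3) :=
    C0_eq yy XX ZZ UU ee XX_ne R2_ne
  rw [h]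
  exact div_ne_zero CN_ne (mul_ne_zero (pow_ne_zero 4 XX_ne) (pow_ne_zero 3 R2_ne))

/-- the generators -/
noncomputable def gen : Fin 6 → E (Fin 6) := ![ss, ll, zz, r1 / r2, WW / r2, V0 / r2]

theorem num_mem (M : IntermediateField ℂ (E (Fin 6))) (n : ℕ) [n.AtLeastTwo] :
    (OfNat.ofNat n : E (Fin 6)) ∈ M := by
  have h := _root_.natCast_mem M n
  exact h

theorem gen_le : adjoin ℂ (Set.range gen) ≤ I := by
  rw [adjoin_le_iff]
  obtain ⟨ml, mz, mt, mW, mV⟩ := gens_mem I.toSubfield ee aa bb cc dd yy ee_mem aa_mem bb_mem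
    cc_mem dd_mem yy_mem ll zz uu vv pp PP r1 r2 WW V0 rfl rfl rfl rfl rfl rfl rfl rfl rfl rfl
  rintro _ ⟨i, rfl⟩
  fin_cases i
  · exact ss_mem
  · exact ml
  · exact mz
  · exact mt
  · exact mW
  · exact mV

theorem le_gen : I ≤ adjoin ℂ (Set.range gen) := by
  set M := adjoin ℂ (Set.range gen) with hM
  have hg : ∀ i, gen i ∈ M := fun i => subset_adjoin ℂ _ ⟨i, rfl⟩
  have hs : ss ∈ M := hg 0
  have hl : ll ∈ M := hg 1
  have hz : zz ∈ M := hg 2
  have ht : r1 / r2 ∈ M := hg 3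
  have hW : WW / r2 ∈ M := hg 4
  have hV : V0 / r2 ∈ M := hg 5
  have hD : yy ^ 2 = D6 ee aa bb cc dd := disc6 xx xx_inj xx_sum
  obtain ⟨me, ma, mb, mc, md, my⟩ := gen6 M.toSubfield ee aa bb cc dd yy hD XX_ne ZZ_ne
    ll zz uu vv pp PP r1 r2 WW V0 rfl rfl rfl rfl rfl rfl rfl rfl rfl rfl pp_ne PP_ne r2_ne C0_ne
    hl hz ht hW hV
  refine inv_le (by norm_num) M (esymm_of_coeff M ?_) ?_
  · intro k
    have h1 : ∏ i : Fin 6, (Polynomial.X - Polynomial.C (x i : E (Fin 6))) =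
        (∏ i : Fin 6, (Polynomial.X - Polynomial.C (xx i))).comp
          (Polynomial.X - Polynomial.C (ss / 6)) := by
      rw [Polynomial.prod_comp]
      refine Finset.prod_congr rfl fun i _ => ?_
      rw [Polynomial.sub_comp, Polynomial.X_comp, Polynomial.C_comp, sub_sub, ← map_add]
      congr 2
      unfold xx xp ss
      rw [map_sub, map_mul]
      have h2 : A (C (1 / 6 : ℂ)) = 1 / 6 := by
        have h3 : A (C (1 / 6 : ℂ)) = algebraMap ℂ (E (Fin 6)) (1 / 6) :=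
          (IsScalarTower.algebraMap_apply ℂ (MvPolynomial (Fin 6) ℂ) (E (Fin 6)) (1 / 6)).symm
        rw [h3, map_div₀, map_one, map_ofNat]
      rw [h2, Fin.sum_univ_six]
      simp only [map_add]
      unfold x
      ring
    rw [h1]
    exact coeff_comp_mem M.toSubfield _
      (fun j => coeffs6_mem xx xx_sum M.toSubfield me ma mb mc md j) _
      (div_mem hs (num_mem M 6)) k
  · have h1 : A (vdm 6) = yy := by
      unfold vdm yy
      rw [RingHom.map_det]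
      have h2 : ∀ i, xx i = A (X i) - A (C (1 / 6 : ℂ) * (X 0 + X 1 + X 2 + X 3 + X 4 + X 5)) :=
        fun i => by unfold xx xp; rw [map_sub]
      have h3 : (A.mapMatrix (Matrix.vandermonde (X : Fin 6 → MvPolynomial (Fin 6) ℂ))) =
          Matrix.vandermonde (fun i => A (X i)) := by
        ext i j
        simp [Matrix.vandermonde_apply]
      rw [h3]
      have h4 : (xx : Fin 6 → E (Fin 6)) = fun i => A (X i) -
          A (C (1 / 6 : ℂ) * (X 0 + X 1 + X 2 + X 3 + X 4 + X 5)) := funext h2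
      rw [h4, Matrix.det_vandermonde_sub]
    change A (vdm 6) ∈ M
    rw [h1]
    exact my

end Six

/-- The field of invariants of the alternating group of degree 6 is generated by 6 elements. -/
theorem rat6 : Rat (alternatingGroup (Fin 6)) :=
  ⟨Six.gen, le_antisymm Six.gen_le Six.le_gen⟩

end Pool.Agent.NOE
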