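import Pool.Agent.NOE.Coef

/-!
# The alternating groups of odd degree: statements of the modules

For `n` even the field of invariants of `A_(n+1)` is generated by `n + 1` elements as soon as the
field of invariants of `A_n` is generated by `n` elements.  Paper proof: `PAPER.md`.
-/

open MvPolynomial IntermediateField
open Pool.Agent.Lib_helper20.Noether

namespace Pool.Agent.NOE

section defs

variable {K ι : Type} [Field K] [Fintype ι] [DecidableEq ι]

/-- The alternating matrix `(1 / (x i - x j))`; the diagonal is `0⁻¹ = 0`. -/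
def AM (x : ι → K) : Matrix ι ι K := Matrix.of fun i j => (x i - x j)⁻¹

/-- The matrix all of whose entries are one. -/
def JM (K ι : Type) [Field K] : Matrix ι ι K := Matrix.of fun _ _ => 1

/-- `c` is a vector of the kernel of `AM x`, with sum 1, and the only one. -/
structure IsKer (x c : ι → K) : Prop where
  ker : ∀ i, ∑ j, (x i - x j)⁻¹ * c j = 0
  sum : ∑ i, c i = 1
  uniq : ∀ v : ι → K, (∀ i, ∑ j, (x i - x j)⁻¹ * v j = 0) → ∑ i, v i = 0 → v = 0

/-- `F = ∏ (T - x i)` -/
noncomputable def FF (x : ι → K) : Polynomial K := ∏ i, (Polynomial.X - Polynomial.C (x i))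

/-- `G = ∑ c_i^2 F / (T - x_i)` -/
noncomputable def GG (x c : ι → K) : Polynomial K :=
  ∑ i, Polynomial.C (c i ^ 2) * ∏ j ∈ Finset.univ.erase i, (Polynomial.X - Polynomial.C (x j))

/-- `F1 = F + (∑ x_i) G` -/
noncomputable def F1 (x c : ι → K) : Polynomial K := FF x + Polynomial.C (∑ i, x i) * GG x c

end defs

/-- The constant `κ`. -/
noncomputable def kap {K : Type} [Field K] {n : ℕ} (x c : Fin n → K) : K :=
  (Matrix.vandermonde x).det * ∏ i, c i

/-- The field generated by the canonical pencil. -/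
noncomputable def MM {n : ℕ} (c : Fin n → E (Fin n)) : IntermediateField ℂ (E (Fin n)) :=
  adjoin ℂ ({f | ∃ k, f = (F1 x c).coeff k} ∪ {f | ∃ k, f = (GG x c).coeff k} ∪ {kap x c})

/-! ### Field theory -/

/-- Derivations of a field of rational functions. -/
def Stmt_DER : Prop :=
  ∀ (ι : Type) (w : ι → E ι), ∃ D : Derivation ℂ (E ι) (E ι), ∀ i, D (x i) = w i

/-- An element with nonzero derivative is transcendental over the constants. -/
def Stmt_TRD : Prop :=
  ∀ (K : Type) [Field K] [Algebra ℂ K] (M : IntermediateField ℂ K) (D : Derivation ℂ K K) (t : K),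
    (∀ f ∈ M, D f = 0) → D t ≠ 0 → Transcendental M t

/-- Two simple transcendental extensions of `M` have the same number of generators over `ℂ`. -/
def Stmt_ISO : Prop :=
  ∀ (K ι : Type) [Field K] [Algebra ℂ K] (M : IntermediateField ℂ K) (p t : K) (u : ι → K),
    Transcendental M p → Transcendental M t →
      adjoin ℂ (Set.range u) = M ⊔ adjoin ℂ {p} →
        ∃ w : ι → K, adjoin ℂ (Set.range w) = M ⊔ adjoin ℂ {t}

/-! ### The kernel vector -/

/-- For a vector of the kernel the square of the sum is the sum of the squares. -/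
def Stmt_SQ : Prop :=
  ∀ (K ι : Type) [Field K] [CharZero K] [Fintype ι] [DecidableEq ι] (x c : ι → K),
    Function.Injective x → (∀ i, ∑ j, (x i - x j)⁻¹ * c j = 0) →
      (∑ i, c i) ^ 2 = ∑ i, c i ^ 2

/-- `det (A + J) ≠ 0` over the field of rational functions (evaluate at a real point). -/
def Stmt_DET : Prop :=
  ∀ (ι : Type) [Fintype ι] [DecidableEq ι], (AM (x : ι → E ι) + JM (E ι) ι).det ≠ 0

/-- Existence and uniqueness of the normalised vector of the kernel. -/
def Stmt_KER : Prop :=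
  ∀ (K ι : Type) [Field K] [CharZero K] [Fintype ι] [DecidableEq ι] (x : ι → K),
    Odd (Fintype.card ι) → (AM x + JM K ι).det ≠ 0 → ∃ c : ι → K, IsKer x c

/-- The derivative of the kernel vector along `x_i' = -c_i^2`. -/
def Stmt_GAM : Prop :=
  ∀ (K ι : Type) [Field K] [Algebra ℂ K] [Fintype ι] [DecidableEq ι] (x c : ι → K),
    Function.Injective x → IsKer x c → ∀ D : Derivation ℂ K K, (∀ i, D (x i) = - c i ^ 2) →
      ∀ i, D (c i) = - (c i * ∑ j, (x i - x j)⁻¹ * c j ^ 2)

/-- The pencil is constant along `x_i' = -c_i^2`. -/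
def Stmt_CONP : Prop :=
  ∀ (K ι : Type) [Field K] [Algebra ℂ K] [Fintype ι] [DecidableEq ι] (x c : ι → K),
    Function.Injective x → IsKer x c → ∑ i, c i ^ 2 = 1 →
      ∀ D : Derivation ℂ K K, (∀ i, D (x i) = - c i ^ 2) →
        (∀ i, D (c i) = - (c i * ∑ j, (x i - x j)⁻¹ * c j ^ 2)) →
          D (∑ i, x i) = -1 ∧ (∀ k, D ((GG x c).coeff k) = 0) ∧ ∀ k, D ((F1 x c).coeff k) = 0

/-- The constant `κ` is constant. -/
def Stmt_CONK : Prop :=
  ∀ (K : Type) [Field K] [Algebra ℂ K] (n : ℕ) (x c : Fin n → K),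
    Function.Injective x → ∀ D : Derivation ℂ K K, (∀ i, D (x i) = - c i ^ 2) →
        (∀ i, D (c i) = - (c i * ∑ j, (x i - x j)⁻¹ * c j ^ 2)) → D (kap x c) = 0

/-! ### The fields of invariants -/

/-- Equivariance of the kernel vector. -/
def Stmt_EQV : Prop :=
  ∀ (ι : Type) [Fintype ι] [DecidableEq ι] (c : ι → E ι), IsKer (x : ι → E ι) c →
    (∀ (σ : Equiv.Perm ι) (i : ι), perm σ (c i) = c (σ i)) ∧ ∀ i, c i ≠ 0

/-- The symmetric functions are contained in every field containing the elementary ones. -/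
def Stmt_SYM : Prop :=
  ∀ (n : ℕ) (M : IntermediateField ℂ (E (Fin n))),
    (∀ k, (FF (x : Fin n → E (Fin n))).coeff k ∈ M) →
      invField (⊤ : Subgroup (Equiv.Perm (Fin n))) ≤ M

/-- `M(∑ x_i)` is the field of invariants of `A_n` (from SYM, EQV). -/
def Stmt_FLDA : Prop :=
  ∀ (n : ℕ), 2 ≤ n → ∀ c : Fin n → E (Fin n), IsKer (x : Fin n → E (Fin n)) c →
    MM c ⊔ adjoin ℂ {∑ i, x i} = invField (alternatingGroup (Fin n))

/-- `M(x_last)` contains the sum of the variables (from EQV). -/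
def Stmt_FLDB : Prop :=
  ∀ (n : ℕ), 1 ≤ n → ∀ c : Fin (n + 1) → E (Fin (n + 1)), IsKer (x : Fin (n + 1) → E (Fin (n + 1))) c →
    (∑ i, x i) ∈ MM c ⊔ adjoin ℂ {x (Fin.last n)}

/-- Adding one variable. -/
def Stmt_UP : Prop :=
  ∀ m : ℕ, 2 ≤ m → ∃ ψ : E (Fin m) →ₐ[ℂ] E (Fin (m + 1)),
    (invField (alternatingGroup (Fin m))).map ψ ⊔ adjoin ℂ {x (Fin.last m)} =
      invField (alternatingGroup (Fin (m + 1))) ⊔ adjoin ℂ {x (Fin.last m)}

/-- The theorem. -/
def Stmt_ODD : Prop :=
  ∀ m : ℕ, 2 ≤ m → Even m → Rat (alternatingGroup (Fin m)) → Rat (alternatingGroup (Fin (m + 1)))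

end Pool.Agent.NOE
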