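import Pool.Agent.NOE.Stmts

/-!
# An element with nonzero derivative is transcendental over the constants
-/

open IntermediateField

namespace Pool.Agent.NOE

namespace TRD

variable {K : Type} [Field K] [Algebra ℂ K]

/-- A derivation which kills `M` is a derivation over `M`. -/
noncomputable def lift (M : IntermediateField ℂ K) (D : Derivation ℂ K K)
    (h : ∀ f ∈ M, D f = 0) : Derivation M K K where
  toFun := D
  map_add' a b := map_add D a b
  map_smul' a b := by
    have h1 : a • b = (a : K) * b := rfl
    rw [h1, D.leibniz, h _ a.2, smul_zero, add_zero]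
    rfl
  map_one_eq_zero' := D.map_one_eq_zero
  leibniz' a b := D.leibniz a b

theorem lift_apply (M : IntermediateField ℂ K) (D : Derivation ℂ K K)
    (h : ∀ f ∈ M, D f = 0) (a : K) : lift M D h a = D a := rfl

end TRD

theorem TRD_thm : Stmt_TRD := by
  intro K _ _ M D t hM ht halg
  have h0 : CharZero M := charZero_of_injective_algebraMap (algebraMap ℂ M).injective
  have hint : IsIntegral M t := halg.isIntegral
  have hsep : (minpoly M t).Separable := (minpoly.irreducible hint).separable
  have h1 : TRD.lift M D hM (Polynomial.aeval t (minpoly M t)) =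
      Polynomial.aeval t (Polynomial.derivative (minpoly M t)) • TRD.lift M D hM t :=
    Derivation.map_aeval _ _ _
  rw [minpoly.aeval, map_zero, TRD.lift_apply] at h1
  have h2 : Polynomial.aeval t (Polynomial.derivative (minpoly M t)) ≠ 0 :=
    hsep.aeval_derivative_ne_zero (minpoly.aeval M t)
  rcases smul_eq_zero.1 h1.symm with h3 | h3
  · exact h2 h3
  · exact ht h3

end Pool.Agent.NOE
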