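import Pool.Agent.NOE.Stmts

/-!
# UP: adding one variable
-/

open MvPolynomial IntermediateField
open Pool.Agent.Lib_helper20.Noether Pool.Agent.Lib_helper20.Noether.ARTIN

namespace Pool.Agent.NOE

namespace UP

theorem eval_mem {K : Type} [Field K] [Algebra ℂ K] (M : IntermediateField ℂ K)
    (q : Polynomial K) (hq : ∀ k, q.coeff k ∈ M) (t : K) (ht : t ∈ M) : q.eval t ∈ M := by
  rw [Polynomial.eval_eq_sum]
  exact sum_mem fun _ _ => mul_mem (hq _) (pow_mem ht _)

theorem lift_of {K : Type} [Field K] [Algebra ℂ K] (M : IntermediateField ℂ K)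
    (q : Polynomial K) (hq : ∀ k, q.coeff k ∈ M) :
    ∃ Q : Polynomial M, Q.map (algebraMap M K) = q := by
  have h1 : q ∈ Polynomial.lifts (algebraMap M K) := by
    rw [Polynomial.lifts_iff_coeff_lifts]
    intro j
    exact ⟨⟨q.coeff j, hq j⟩, rfl⟩
  obtain ⟨Q, hQ⟩ := h1
  exact ⟨Q, hQ⟩

theorem coeff_mul_mem {K : Type} [Field K] [Algebra ℂ K] (M : IntermediateField ℂ K)
    (q : Polynomial K) (hq : ∀ k, q.coeff k ∈ M) (t : K) (ht : t ∈ M) (k : ℕ) :
    (q * (Polynomial.X - Polynomial.C t)).coeff k ∈ M := by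
  obtain ⟨Q, hQ⟩ := lift_of M q hq
  have h2 : q * (Polynomial.X - Polynomial.C t) =
      (Q * (Polynomial.X - Polynomial.C (⟨t, ht⟩ : M))).map (algebraMap M K) := by
    rw [Polynomial.map_mul, hQ, Polynomial.map_sub, Polynomial.map_X, Polynomial.map_C]
    rfl
  rw [h2, Polynomial.coeff_map]
  exact ((Q * (Polynomial.X - Polynomial.C (⟨t, ht⟩ : M))).coeff k).2

theorem coeff_div_mem {K : Type} [Field K] [Algebra ℂ K] (M : IntermediateField ℂ K)
    (q : Polynomial K) (t : K) (ht : t ∈ M)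
    (hq : ∀ k, (q * (Polynomial.X - Polynomial.C t)).coeff k ∈ M) (k : ℕ) :
    q.coeff k ∈ M := by
  obtain ⟨Q, hQ⟩ := lift_of M _ hq
  have h1 : (Q /ₘ (Polynomial.X - Polynomial.C (⟨t, ht⟩ : M))).map (algebraMap M K) = q := by
    rw [Polynomial.map_divByMonic _ (Polynomial.monic_X_sub_C _), hQ, Polynomial.map_sub,
      Polynomial.map_X, Polynomial.map_C, mul_comm]
    exact Polynomial.mul_divByMonic_cancel_left q (Polynomial.monic_X_sub_C t)
  rw [← h1, Polynomial.coeff_map]
  exact ((Q /ₘ (Polynomial.X - Polynomial.C (⟨t, ht⟩ : M))).coeff k).2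

theorem vand_ite {R : Type} [CommRing R] {n : ℕ} (v : Fin n → R) :
    (Matrix.vandermonde v).det = ∏ i, ∏ j, if i < j then v j - v i else 1 := by
  rw [Matrix.det_vandermonde]
  refine Finset.prod_congr rfl fun i _ => ?_
  rw [← Finset.prod_filter]
  refine Finset.prod_congr ?_ fun _ _ => rfl
  ext j
  simp

theorem vand_succ {R : Type} [CommRing R] {n : ℕ} (v : Fin (n + 1) → R) :
    (Matrix.vandermonde v).det = (Matrix.vandermonde fun i : Fin n => v i.castSucc).det *
      ∏ i : Fin n, (v (Fin.last n) - v i.castSucc) := by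
  rw [vand_ite, vand_ite, Fin.prod_univ_castSucc]
  have h1 : (∏ j : Fin (n + 1), if Fin.last n < j then v j - v (Fin.last n) else 1) = 1 := by
    refine Finset.prod_eq_one fun j _ => ?_
    rw [if_neg (not_lt.2 (Fin.le_last j))]
  rw [h1, mul_one, ← Finset.prod_mul_distrib]
  refine Finset.prod_congr rfl fun i _ => ?_
  rw [Fin.prod_univ_castSucc, if_pos (Fin.castSucc_lt_last i)]
  simp only [Fin.castSucc_lt_castSucc_iff]

theorem map_vdm (n : ℕ) :
    algebraMap (MvPolynomial (Fin n) ℂ) (E (Fin n)) (vdm n) =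
      (Matrix.vandermonde (x : Fin n → E (Fin n))).det := by
  unfold vdm
  rw [RingHom.map_det]
  congr 1
  ext i j
  simp [Matrix.vandermonde, x]

theorem vdm_inv (n : ℕ) :
    algebraMap (MvPolynomial (Fin n) ℂ) (E (Fin n)) (vdm n) ∈
      invField (alternatingGroup (Fin n)) := by
  intro σ hσ
  rw [perm_algebraMap, rename_vdm, Equiv.Perm.mem_alternatingGroup.1 hσ]
  simp

theorem coeff_inv (n : ℕ) (k : ℕ) :
    (∏ i : Fin n, (Polynomial.X - Polynomial.C (x i : E (Fin n)))).coeff k ∈
      invField (alternatingGroup (Fin n)) := by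
  intro σ _
  have h1 : (∏ i : Fin n, (Polynomial.X - Polynomial.C (x i : E (Fin n)))).map
      (perm σ : E (Fin n) ≃ₐ[ℂ] E (Fin n)).toRingEquiv.toRingHom =
        ∏ i : Fin n, (Polynomial.X - Polynomial.C (x i : E (Fin n))) := by
    rw [Polynomial.map_prod]
    have h2 : ∀ i : Fin n, (Polynomial.X - Polynomial.C (x i : E (Fin n))).map
        (perm σ : E (Fin n) ≃ₐ[ℂ] E (Fin n)).toRingEquiv.toRingHom =
          Polynomial.X - Polynomial.C (x (σ i) : E (Fin n)) := by
      intro i
      rw [Polynomial.map_sub, Polynomial.map_X, Polynomial.map_C, ← perm_x]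
      rfl
    simp_rw [h2]
    exact Fintype.prod_equiv σ _ _ fun _ => rfl
  have h3 := congrArg (fun p => Polynomial.coeff p k) h1
  simp only [Polynomial.coeff_map] at h3
  exact h3

end UP

open UP in
theorem UP_thm : Stmt_UP := by
  intro m hm
  -- the embedding
  have hinj : Function.Injective (rename Fin.castSucc :
      MvPolynomial (Fin m) ℂ →ₐ[ℂ] MvPolynomial (Fin (m + 1)) ℂ) :=
    rename_injective _ (Fin.castSucc_injective m)
  have hinj2 : Function.Injective ((IsScalarTower.toAlgHom ℂ (MvPolynomial (Fin (m + 1)) ℂ)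
      (E (Fin (m + 1)))).comp (rename Fin.castSucc :
        MvPolynomial (Fin m) ℂ →ₐ[ℂ] MvPolynomial (Fin (m + 1)) ℂ)) := by
    have h1 : Function.Injective (algebraMap (MvPolynomial (Fin (m + 1)) ℂ)
        (E (Fin (m + 1)))) := IsFractionRing.injective _ _
    exact h1.comp hinj
  obtain ⟨ψ, hψ⟩ : ∃ ψ : E (Fin m) →ₐ[ℂ] E (Fin (m + 1)), ∀ f : MvPolynomial (Fin m) ℂ,
      ψ (algebraMap (MvPolynomial (Fin m) ℂ) (E (Fin m)) f)
        = algebraMap (MvPolynomial (Fin (m + 1)) ℂ) (E (Fin (m + 1)))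
            (rename Fin.castSucc f) := by
    refine ⟨IsFractionRing.liftAlgHom (K := E (Fin m)) hinj2, fun f => ?_⟩
    rw [IsFractionRing.liftAlgHom_apply]
    exact IsFractionRing.lift_algebraMap hinj2 f
  have hψx : ∀ i : Fin m, ψ (x i) = x i.castSucc := by
    intro i
    rw [x, hψ, rename_X, x]
  have hxinj : Function.Injective (x : Fin (m + 1) → E (Fin (m + 1))) := by
    intro i j hij
    exact X_injective (IsFractionRing.injective (MvPolynomial (Fin (m + 1)) ℂ)
      (E (Fin (m + 1))) hij)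
  -- the polynomial of the first variables
  set q : Polynomial (E (Fin (m + 1))) :=
    ∏ i : Fin m, (Polynomial.X - Polynomial.C (x i.castSucc)) with hq
  have hqmap : ∀ k, ψ ((∏ i : Fin m,
      (Polynomial.X - Polynomial.C (x i : E (Fin m)))).coeff k) = q.coeff k := by
    intro k
    have h1 : (∏ i : Fin m, (Polynomial.X - Polynomial.C (x i : E (Fin m)))).map
        (ψ : E (Fin m) →+* E (Fin (m + 1))) = q := by
      rw [Polynomial.map_prod, hq]
      refine Finset.prod_congr rfl fun i _ => ?_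
      rw [Polynomial.map_sub, Polynomial.map_X, Polynomial.map_C, ← hψx i]
      rfl
    rw [← h1, Polynomial.coeff_map]
    rfl
  have hF : (∏ i : Fin (m + 1), (Polynomial.X - Polynomial.C (x i : E (Fin (m + 1))))) =
      q * (Polynomial.X - Polynomial.C (x (Fin.last m))) := by
    rw [Fin.prod_univ_castSucc]
  have hev : q.eval (x (Fin.last m)) =
      ∏ i : Fin m, ((x (Fin.last m) : E (Fin (m + 1))) - x i.castSucc) := by
    rw [hq, Polynomial.eval_prod]
    simp
  have hev0 : q.eval (x (Fin.last m)) ≠ 0 := by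
    rw [hev]
    refine Finset.prod_ne_zero_iff.2 fun i _ => sub_ne_zero.2 fun h => ?_
    exact (Fin.castSucc_lt_last i).ne (hxinj h).symm
  have hv : algebraMap (MvPolynomial (Fin (m + 1)) ℂ) (E (Fin (m + 1))) (vdm (m + 1)) =
      ψ (algebraMap (MvPolynomial (Fin m) ℂ) (E (Fin m)) (vdm m)) *
        q.eval (x (Fin.last m)) := by
    rw [map_vdm, map_vdm, vand_succ, hev]
    congr 1
    have h1 := (ψ : E (Fin m) →ₐ[ℂ] E (Fin (m + 1))).map_det
      (Matrix.vandermonde (x : Fin m → E (Fin m)))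
    rw [h1]
    congr 1
    ext i j
    simp [Matrix.vandermonde, hψx]
  refine ⟨ψ, le_antisymm ?_ ?_⟩
  · refine sup_le ?_ le_sup_right
    rw [map_le_iff_le_comap]
    set R : IntermediateField ℂ (E (Fin (m + 1))) :=
      invField (alternatingGroup (Fin (m + 1))) ⊔ adjoin ℂ {x (Fin.last m)} with hR
    have hxR : x (Fin.last m) ∈ R :=
      (le_sup_right : adjoin ℂ {x (Fin.last m)} ≤ R) (mem_adjoin_simple_self ℂ _)
    have hle : invField (alternatingGroup (Fin (m + 1))) ≤ R := le_sup_left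
    have hqR : ∀ k, q.coeff k ∈ R := by
      refine coeff_div_mem R q _ hxR fun k => ?_
      rw [← hF]
      exact hle (coeff_inv (m + 1) k)
    refine inv_le hm (R.comap ψ) (esymm_of_coeff _ fun k => ?_) ?_
    · show ψ _ ∈ R
      rw [hqmap]
      exact hqR k
    · show ψ _ ∈ R
      have h1 : ψ (algebraMap (MvPolynomial (Fin m) ℂ) (E (Fin m)) (vdm m)) =
          algebraMap (MvPolynomial (Fin (m + 1)) ℂ) (E (Fin (m + 1))) (vdm (m + 1)) /
            q.eval (x (Fin.last m)) := by
        rw [hv, mul_div_cancel_right₀ _ hev0]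
      rw [h1]
      exact div_mem (hle (vdm_inv (m + 1))) (eval_mem R q hqR _ hxR)
  · refine sup_le ?_ le_sup_right
    set L : IntermediateField ℂ (E (Fin (m + 1))) :=
      (invField (alternatingGroup (Fin m))).map ψ ⊔ adjoin ℂ {x (Fin.last m)} with hL
    have hxL : x (Fin.last m) ∈ L :=
      (le_sup_right : adjoin ℂ {x (Fin.last m)} ≤ L) (mem_adjoin_simple_self ℂ _)
    have hle : (invField (alternatingGroup (Fin m))).map ψ ≤ L := le_sup_left
    have hqL : ∀ k, q.coeff k ∈ L := by
      intro k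
      rw [← hqmap k]
      exact hle ⟨_, coeff_inv m k, rfl⟩
    refine inv_le (by omega) L (esymm_of_coeff _ fun k => ?_) ?_
    · rw [hF]
      exact coeff_mul_mem L q hqL _ hxL k
    · rw [hv]
      exact mul_mem (hle ⟨_, vdm_inv m, rfl⟩) (eval_mem L q hqL _ hxL)

end Pool.Agent.NOE
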